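import Pool.Agent.Lib.MP_0da313_nt.HC.Defs

set_option autoImplicit false

/-!
Project HC, section A: the averages over `n` (compare `NC/A.lean`; proofs there: `NC/R/*.lean`).
-/

namespace Pool.Agent.HC.A

open Finset Filter Polynomial
open Pool.Agent.MP89da58 (bil pw nn supp part join compat kapD)
open Pool.Agent.MT (PJf dvI ZI)
open Pool.Agent.BVall (om PK lev)
open Pool.Agent.CM (z0)
open Pool.Agent.TC (wN)
open Pool.Agent.TC.W (qf)
open Pool.Agent.NC (Hn Bn)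
open Pool.Agent.NC.Q (prr nu qr od)
open Pool.Agent.NC.A (Ld Par3 sl)
open Pool.Agent.HC (Fam2 Cm2 DN2 rn2 rp2 Wt4)

/-- The local densities of the family. -/
def R_la2 : Prop := ∀ (ι κ : Type) [Fintype ι] [DecidableEq ι] [Fintype κ] [DecidableEq κ]
  (D d E : ℕ) (H : Fam2 ι κ D d E), ∃ K1 : ℕ, 1 ≤ K1 ∧ ∀ᶠ z : ℕ in atTop,
  (∀ p : ℕ, p.Prime → z < p → ∀ j, ¬ p ∣ H.u j) ∧
  ∀ P : Finset ℕ, (∀ p ∈ P, p.Prime ∧ z < p) →
    Ld P K1 z (fun n => rn2 H P n) ∧ Ld P K1 z (fun n => rp2 H P n) ∧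
    (∀ n (j : PJf P), ∑ s, rn2 H P n j s ≤ 1) ∧ (∀ n (j : PJf P), ∑ s, rp2 H P n j s ≤ 1) ∧
    (∀ n (j : PJf P) s, od (DN2 H P n) j s ≤ K1) ∧
    (∀ n (j : PJf P) s (x y : ℤ), ((j : ℕ) : ℤ) ∣ x - y → (DN2 H P n j s x ↔ DN2 H P n j s y)) ∧
    ∀ n (j : PJf P) s s' y, s ≠ s' → ¬ (DN2 H P n j s y ∧ DN2 H P n j s' y)

/-- [HS la2] Proof: compare `NS la` (`NC/R/la.lean`; its lemmas on `F` can be imported). `σ = ι ⊕ κ`. Let `z` be larger than
`|a l|`, `|coeff d (g l)|`, all `u j`, all `|u j * v j' - u j' * v j|`, `j ≠ j'` (not `0`: `H.hdet`) and, for `l ≠ l'`, than the absolute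
value of some nonzero coefficient of `k = C (a l') * g l - C (a l) * g l'` (`F.hk`), and `z ≥ 2 |σ| d + 2`. Let `p = j > z` be a
prime. `M_j(y) = u y + v` has exactly one root modulo `p`, `L_l(y) = a n + g(y)` at most `d` roots; all of them depend on `n`
modulo `p` only. Number of `n` modulo `p` with `Cm2 H n p`: for two members `l ≠ l'` of `ι` at most `d` classes (as in `NS la`: `y` is
a root of `k`, and `n` is determined by `y`); for a pair `(l, j)`: `y` is the root of `M_j` and `n` is determined by `y` (`p ∤ a l`): one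
class; two members `j ≠ j'` of `κ` have no common root (`p` would divide `u j * v j' - u j' * v j`). Total at most `|σ|^2 d`. So for
`s = inl l`: `p - |σ|^2 d^2 ≤ ∑_{n < p} od (DN2 H P n) j s ≤ p` (for each `y` exactly one `n`), and for `s = inr j'`: for every `n`
without `Cm2` it is `1`, else `0`, so the sum is in `[p - |σ|^2 d, p]`. Both families: `|(∑_n r)/p - 1/(p-1)| ≤ K1/p^2` for
`r = od/p` and for `r = od/(p-1)` (`1/(p (p-1)) ≤ 2/p^2`), `r ≤ 2d/p`, `∑_s r ≤ |σ| d/(p-1) ≤ 1`. Exclusive: definition of `Cm2`.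
`K1 = 4 |σ|^2 d^2 + 2 d + 4`. (`r n j s` depends on `n` modulo `j` only, also `Cm2`.) -/
def S_la2 : Prop := R_la2

open Classical in
/-- The quadratic forms are close to the standard one for almost all `n`. -/
def R_gq2 : Prop := ∀ (ι κ : Type) [Fintype ι] [DecidableEq ι] [Fintype κ] [DecidableEq κ]
  (D d E : ℕ) (H : Fam2 ι κ D d E) (B0 B A : ℕ), 1 ≤ D → 1 ≤ B0 → ∀ᶠ N : ℕ in atTop,
  ∀ (n' : ℕ) (P : Finset ℕ), Par3 H.F B0 N n' P →
  ∀ g : (PJf P → Option (ι ⊕ κ)) → ℝ, Wt4 d N B g →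
  (((Ioc N (Bn E N)).filter (fun n => 1 / (Real.log N) ^ A < |qr (rn2 H P n) g - qf g|)).card : ℝ)
    ≤ N / (Real.log N) ^ A ∧
  (((Ioc N (Bn E N)).filter (fun n => 1 / (Real.log N) ^ A < |qr (rp2 H P n) g - qf g|)).card : ℝ)
    ≤ N / (Real.log N) ^ A

/-- [HS gq2] (uses la2, NC A v2, CM W pr) Proof: that of `NS gq` (`NC/R/gq.lean`), twice (`r = rn2` and `r = rp2`), with
`σ = ι ⊕ κ` in place of `ι` and `Y = ⌊H^(1/5000)⌋₊` (`4 Y^12 ≤ 4 H^(12/5000)`, `H = Hn d N ≤ N`). -/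
def S_gq2 : Prop := R_la2 → NC.A.R_v2 → CM.W.R_pr → R_gq2

/-- The mean value of the number of roots for almost all `n`, from both sides. -/
def R_gs2 : Prop := ∀ (ι : Type) [Fintype ι] [DecidableEq ι] (D d E : ℕ) (F : NC.Fam ι D d E) (l : ι)
  (A : ℕ), ∃ B0 : ℕ, ∀ B1 : ℕ, B0 ≤ B1 → ∀ᶠ N : ℕ in atTop, ∀ z : ℕ,
  (z : ℝ) ≤ (N : ℝ) ^ (1 / 10 : ℝ) →
  (((Ioc N (Bn E N)).filter (fun n => 1 / 100 < |sl F n (wN B1 N) z l|)).card : ℝ) ≤
    N / (Real.log N) ^ A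

/-- [HS gs2] (uses NC A la, NC Q cr) Proof: that of `NS gs` (`NC/R/gs.lean`), where the mean square
`∑_n sl^2 ≤ (K1+1)^2 (N/w + N^(1/5))` is proved; Chebyshev's inequality is used for both signs. -/
def S_gs2 : Prop := NC.A.R_la → NC.Q.R_cr → R_gs2

end Pool.Agent.HC.A
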