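import Pool.Agent.Lib.MP_0da313_nt.NC.F

set_option autoImplicit false

/-!
Project HC (clusters of Hua type: primes among the values of nonlinear members and at the same time among the
values of linear members, on the line `x + y = n`, for almost all `n`): the definitions and the interface
between the analytic part and the sieve part.

`F : NC.Fam ι D d E` (`NC/Defs.lean`) are the nonlinear members `F.L n l x = a l * n + g l (x)`, `deg g l = d ≥ 2`,
positive in the window `F.wh N x ≠ 0` around `x = (s N)^(1/d)`. New are the linear members `M j x = u j * x + v j`,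
`j : κ`, `u j ≥ 1`; they do not depend on `n`.
-/

namespace Pool.Agent.HC

open Finset Filter Polynomial
open Pool.Agent.MP89da58 (bil pw nn supp part kapD tri)
open Pool.Agent.MT (PJf dvI ZI)
open Pool.Agent.BVall (om rhoW PK lev RepB Dens)
open Pool.Agent.Lib.MP_0da313_nt (W)
open Pool.Agent.CH (thP)
open Pool.Agent.CM (wd z0)
open Pool.Agent.TC (Lw wN)
open Pool.Agent.NC (Hn Bn)
open Pool.Agent.NC.Q (od)

/-- The data attached to an admissible family: the nonlinear members are those of `F`, the linear members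
are `u j * x + v j`. -/
structure Fam2 (ι κ : Type) [Fintype ι] [DecidableEq ι] [Fintype κ] [DecidableEq κ] (D d E : ℕ) where
  F : NC.Fam ι D d E
  u : κ → ℕ
  v : κ → ℤ
  Hc : ℕ → κ → ℤ[X]
  hH : ∀ n, F.N0 ≤ n → ∀ j, F.G n = (C ((u j : ℕ) : ℤ) * X + C (v j)) * Hc n j
  hu : ∀ j, 1 ≤ u j
  huv : ∀ j, IsCoprime ((u j : ℕ) : ℤ) (v j)
  hdet : ∀ j j', j ≠ j' → ((u j : ℕ) : ℤ) * v j' ≠ ((u j' : ℕ) : ℤ) * v j

variable {ι κ : Type} [Fintype ι] [DecidableEq ι] [Fintype κ] [DecidableEq κ] {D d E : ℕ}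

namespace Fam2

variable (H : Fam2 ι κ D d E)

/-- The value of the linear member `j`. -/
def M (j : κ) (x : ℤ) : ℤ := (H.u j : ℤ) * x + H.v j

/-- The values of all the members of the two clusters. -/
def L2 (n : ℕ) : ι ⊕ κ → ℤ → ℤ := Sum.elim (fun l x => H.F.L n l x) (fun j x => H.M j x)

end Fam2

open Classical in
/-- The relevant classes modulo `q`: the residues `c` such that `q` divides `G(c)` and the values of the
members `l` and `j` at `c` are coprime to `q`. -/
noncomputable def Cq2 (H : Fam2 ι κ D d E) (n q : ℕ) (l : ι) (j : κ) : Finset ℕ :=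
  (range q).filter (fun c => (q : ℤ) ∣ (H.F.G n).eval (c : ℤ) ∧
    IsCoprime (q : ℤ) (H.F.L n l c * H.M j c))

/-- The difference between the prime sum and the model sum over a class. -/
noncomputable def Er2 (H : Fam2 ι κ D d E) (N w n : ℕ) (l : ι) (j : κ) (q c : ℕ) : ℝ :=
  ∑ x ∈ (Icc 1 (Hn d N)).filter (fun x => x ≡ c [MOD q]),
    H.F.wh N x * thP (H.M j x).toNat * (thP (H.F.L n l x).toNat - Lw w (H.F.L n l x).toNat)

/-- The sum over the moduli. -/
noncomputable def ErS2 (H : Fam2 ι κ D d E) (N w n b : ℕ) (l : ι) (j : κ) : ℝ :=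
  ∑ q ∈ (Icc 1 ⌊(N : ℝ) ^ (1 / (1000 * d) : ℝ)⌋₊).filter Squarefree,
    (b : ℝ) ^ q.primeFactors.card * ∑ c ∈ Cq2 H n q l j, |Er2 H N w n l j q c|

open Classical in
/-- THE INTERFACE: the statement which the analytic part has to prove. -/
def R_EX2 : Prop := ∀ (ι κ : Type) [Fintype ι] [DecidableEq ι] [Fintype κ] [DecidableEq κ]
  (D d E : ℕ) (H : Fam2 ι κ D d E) (l : ι) (j : κ) (A b : ℕ), ∃ B0 : ℕ, ∀ B1 : ℕ, B0 ≤ B1 →
  ∀ᶠ N : ℕ in atTop, (((Ioc N (Bn E N)).filter (fun n =>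
    (N : ℝ) ^ (1 / (d : ℝ)) / (Real.log N) ^ A < ErS2 H N (wN B1 N) n b l j)).card : ℝ) ≤
    N / (Real.log N) ^ A

/-! ### The local conditions of the weights -/

/-- Two different members have a common root modulo `p`. -/
def Cm2 (H : Fam2 ι κ D d E) (n p : ℕ) : Prop :=
  ∃ (s s' : ι ⊕ κ) (y : ℤ), s ≠ s' ∧ (p : ℤ) ∣ H.L2 n s y ∧ (p : ℤ) ∣ H.L2 n s' y

/-- The local conditions of the weights. -/
def DN2 (H : Fam2 ι κ D d E) (P : Finset ℕ) (n : ℕ) : PJf P → ι ⊕ κ → ℤ → Prop :=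
  fun j s y => ((j : ℕ) : ℤ) ∣ H.L2 n s y ∧ ¬ Cm2 H n (j : ℕ)

/-- The densities of the local conditions among the integers. -/
noncomputable def rn2 (H : Fam2 ι κ D d E) (P : Finset ℕ) (n : ℕ) (j : PJf P) (s : ι ⊕ κ) : ℝ :=
  (od (DN2 H P n) j s : ℝ) / ((j : ℕ) : ℝ)

/-- The densities of the local conditions among the `x` for which a linear member is a prime. -/
noncomputable def rp2 (H : Fam2 ι κ D d E) (P : Finset ℕ) (n : ℕ) (j : PJf P) (s : ι ⊕ κ) : ℝ :=
  (od (DN2 H P n) j s : ℝ) / (((j : ℕ) : ℝ) - 1)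

/-- The size and the support of the weights. -/
structure Wt4 {σ : Type} [Fintype σ] [DecidableEq σ] {P : Finset ℕ} (d N B : ℕ)
    (g : (PJf P → Option σ) → ℝ) : Prop where
  bd : ∀ α, |g α| ≤ B
  sup : ∀ α, g α ≠ 0 → ((nn (fun j : PJf P => (j : ℕ)) (supp α) : ℕ) : ℝ) ≤
    (Hn d N : ℝ) ^ (1 / 5000 : ℝ)

/-! ### The conditions of the sieve -/

/-- The condition at the prime `p` for the pair `l`, `j`: for `p ≤ w` the values `y` with `p ∣ G(y)`,
`p ∤ M_j(y)`; for `w < p ≤ z` in addition `p ∤ L_l(y)`. -/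
def Q4 (H : Fam2 ι κ D d E) (n w z : ℕ) (l : ι) (j : κ) (p : ℕ) (y : ℤ) : Prop :=
  p ≤ z ∧ (p : ℤ) ∣ (H.F.G n).eval y ∧ ¬ (p : ℤ) ∣ H.M j y ∧ (w < p → ¬ (p : ℤ) ∣ H.F.L n l y)

open Classical in
/-- The indicator function of the condition. -/
noncomputable def r4 (H : Fam2 ι κ D d E) (n w z : ℕ) (l : ι) (j : κ) (y : ℤ) (p : ℕ) : ℝ :=
  if Q4 H n w z l j p y then 1 else 0

open Classical in
/-- The density of the condition. -/
noncomputable def d4 (H : Fam2 ι κ D d E) (n w z : ℕ) (l : ι) (j : κ) (p : ℕ) : ℝ :=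
  rhoW (H.u j) (Q4 H n w z l j) p

/-- The mass of the primes of the member `j`. -/
noncomputable def Sj (H : Fam2 ι κ D d E) (N : ℕ) (j : κ) : ℝ :=
  ∑ x ∈ Icc 1 (Hn d N), H.F.wh N x * thP (H.M j x).toNat

/-- The number of the relevant classes modulo `p` for the integers `x` with `u x + v` prime. -/
noncomputable def ph (u p : ℕ) : ℝ := ((if p ∣ u then p else p - 1 : ℕ) : ℝ)

end Pool.Agent.HC
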