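import Pool.Agent.Lib.MP_0da313_nt.NC.Wy.Abel
import Pool.Agent.Lib.MP_d610d0_nt.CH.D.Stm

set_option autoImplicit false

/-!
Project HC, section W: exponential sums over primes with a real polynomial in the phase, in a residue class
(the inequalities of Weyl, Vinogradov and Hua, with a saving of a power of the logarithm, for moduli up to a
small power). `R_x` is the conclusion, `S_x` the statement to be proved (with the results it uses as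
hypotheses).

Tools which exist already (`Lib/MP_0da313_nt/NC/Wy`): `diff_one`, `weyl_diff`, `WP` (iterated differences),
`wp_poly`, `RR`, `RR_le`, `RR_nonneg`, `tk`, `tk_mul_le`, `tk_sq`, `sum_tk_mn`, `weyl`, `abel`, `mn_mono`, `mn_nonneg`,
`mn_le`, `norm_ex`, `ex_add`, `conj_ex`; `SP80.sw1`, `SP80.sw3` (`Lib/MP_1e1427_nt/SP/W1.lean`, `W3.lean`). `ex x = exp(2 π i x)`,
`mn H x = min (H, 1/(2‖x‖))` (`H` if `x` is an integer). `d ≥ 2` is the degree of the phase, `θ = f.coeff d`, `L = log X`.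
-/

namespace Pool.Agent.HC.W

open Finset Filter Polynomial
open ArithmeticFunction (vonMangoldt)
open Pool.Agent.CH (thP)
open Pool.Agent.SP80 (ex mn)
open Pool.Agent.NC.Wy (tk RR WP)

/-! ### Definitions -/

/-- The leading coefficient `θ` is close to a fraction with denominator `(d!)^2 m Q^(2d)`, `m` small. -/
def Maj (d B : ℕ) (X : ℝ) (Q : ℕ) (f : ℝ[X]) : Prop :=
  ∃ m ∈ Icc 1 ⌊(Real.log X) ^ B⌋₊, ∃ b : ℤ,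
    |f.coeff d - b / ((d.factorial ^ 2 * m * Q ^ (2 * d) : ℕ) : ℝ)| ≤ (Real.log X) ^ B / X ^ d

/-- The sum over `h_1, ..., h_k < U` of `Ψ (s + h_1 + ... + h_k) (p * h_1 * ... * h_k)`. -/
noncomputable def MS : ℕ → ℕ → (ℕ → ℕ → ℝ) → ℕ → ℕ → ℝ
  | 0, _, Ψ, s, p => Ψ s p
  | (k + 1), U, Ψ, s, p => ∑ h ∈ range U, MS k U Ψ (s + h) (p * h)

/-- The sum over `h_i < U_i` (`U_i` the elements of the list) of `mn V (h_1 * ... * h_k * x)`. -/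
noncomputable def RL : List ℕ → ℕ → ℝ → ℝ
  | [], V, x => mn V x
  | (U :: t), V, x => ∑ h ∈ range U, RL t V (h * x)

/-- `d` variables `< U` and `d - 1` variables `< V`. -/
noncomputable def GG (d U V : ℕ) (x : ℝ) : ℝ :=
  RL (List.replicate d U ++ List.replicate (d - 1) V) V x

/-- The double sum over the pairs `(l_1, l_2)`, `l_i` in a residue class, of the squares of the sums over
`m` in a residue class. -/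
noncomputable def TT (f : ℝ[X]) (Q m0 l0 U V Y : ℕ) : ℝ :=
  ∑ i1 ∈ range V, ∑ i2 ∈ range V, ‖∑ j ∈ (range U).filter (fun j =>
    (m0 + Q * j) * (l0 + Q * i1) ≤ Y ∧ (m0 + Q * j) * (l0 + Q * i2) ≤ Y),
    ex (f.eval (((m0 + Q * j) * (l0 + Q * i1) : ℕ) : ℝ) -
      f.eval (((m0 + Q * j) * (l0 + Q * i2) : ℕ) : ℝ))‖ ^ 2

/-- A block of the bilinear sum. -/
noncomputable def BS (f : ℝ[X]) (Q a M L Y : ℕ) (α β : ℕ → ℂ) : ℂ :=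
  ∑ m ∈ Ioc M (2 * M), ∑ l ∈ Ioc L (2 * L), (if m * l ≡ a [MOD Q] ∧ m * l ≤ Y then
    α m * β l * ex (f.eval ((m * l : ℕ) : ℝ)) else 0)

/-! ### Type I sums -/

/-- Weyl's inequality as an alternative. -/
def R_wa : Prop := ∀ d A : ℕ, 2 ≤ d → ∃ B : ℕ, ∀ᶠ Y : ℕ in atTop, ∀ f : ℝ[X], f.natDegree ≤ d →
  (∀ u ≤ Y, ‖∑ y ∈ range u, ex (f.eval (y : ℝ))‖ ≤ Y / (Real.log Y) ^ A) ∨
  ∃ m ∈ Icc 1 ⌊(Real.log Y) ^ B⌋₊, ∃ b : ℤ,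
    |(d.factorial : ℝ) * f.coeff d - b / m| ≤ (Real.log Y) ^ B / (Y : ℝ) ^ d

/-- [HW wa] Proof: `B` from `NC.Wy.weyl`; `L = log Y ≥ 1`, `K = ⌊Y^d/L^B⌋₊ ≥ 1` for large `Y` (`pow_log_le`). Dirichlet
(`Real.exists_rat_abs_sub_le_and_den_le` or `Real.exists_int_int_abs_mul_sub_le`, as in the proof of [NE gmi],
`NC/P/gmi.lean`): with `θ = d! coeff_d f` there are `1 ≤ m ≤ K`, `(b, m) = 1`, `|θ - b/m| ≤ 1/((K+1) m)`. If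
`m ≥ L^B`: `weyl` applies with `l = m` (`m L^B ≤ K L^B ≤ Y^d`, `1/((K+1) m) ≤ 1/m^2`). If `m < L^B`: `m ≤ ⌊L^B⌋₊` and
`1/((K+1) m) ≤ 1/(K+1) ≤ L^B/Y^d`. -/
def S_wa : Prop := R_wa

/-- The `m` with `q ∣ m^d r` are multiples of some `s`. -/
def R_sr : Prop := ∀ d r q : ℕ, 1 ≤ d → 1 ≤ r → 1 ≤ q →
  ∃ s : ℕ, 1 ≤ s ∧ q ≤ s ^ d * r ∧ ∀ m : ℕ, q ∣ m ^ d * r → s ∣ m

/-- [HW sr] Proof: let `s ≥ 1` be the least natural number with `q ∣ s^d r` (`q` itself is one: `Nat.find`). Then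
`q ≤ s^d r` (`Nat.le_of_dvd`). If `q ∣ m^d r`, `m ≥ 1`, then `q ∣ gcd(m^d r, s^d r) = gcd(m^d, s^d) r = gcd(m, s)^d r`
(`Nat.gcd_mul_right`, `Nat.pow_gcd_pow` or `Nat.Coprime.pow`), so `gcd(m, s) ≥ s` by minimality, `gcd(m, s) = s`, `s ∣ m`.
`m = 0` is clear. -/
def S_sr : Prop := R_sr

/-- Type I sums. -/
def R_t1 : Prop := ∀ d A : ℕ, 2 ≤ d → ∃ B : ℕ, ∀ᶠ X : ℝ in atTop, ∀ (Q a M : ℕ) (f : ℝ[X])
  (v : ℕ → ℕ), 1 ≤ Q → (Q : ℝ) ≤ X ^ (1 / 500 : ℝ) → a.Coprime Q → f.natDegree ≤ d →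
  (M : ℝ) ≤ X ^ (1 / 5 : ℝ) → (∀ m ∈ Icc 1 M, (v m : ℝ) ≤ 2 * X / m) →
  ∑ m ∈ Icc 1 M, ‖∑ l ∈ (Icc 1 (v m)).filter (fun l => m * l ≡ a [MOD Q]),
      ex (f.eval ((m * l : ℕ) : ℝ))‖ ≤ X / Q / (Real.log X) ^ A ∨ Maj d B X Q f

/-- [HW t1] (uses wa, sr) Proof: `B1` from `R_wa` for `A + 2`, `B2 = B1 + 1 + d (B1 + A + 5)`, `B = B2`. Let `K = d! Q^d`.
If `m` is not coprime to `Q` the inner sum is empty (`a` is coprime to `Q`). If `m` is coprime to `Q` the `l` are the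
`l0 + Q y`, `y ∈ range u`, with `1 ≤ l0 ≤ Q`, `u ≤ Y_m := ⌊2X/(m Q)⌋₊ + 1`, `2X/(m Q) ≤ Y_m ≤ 4X/(m Q)`, and the sum is
`∑_{y < u} ex (f_m(y))`, `f_m = f.comp (C (m l0) + C (m Q) * X)`, `natDegree ≤ d`, `coeff_d f_m = θ (m Q)^d`. `Y_m ≥ X^(1/2)` (uniformly
large), `L/2 ≤ log Y_m ≤ 2 L`. GOOD `m` (first alternative of `R_wa`): together at most
`∑_m (4X/(m Q)) (L/2)^(-A-2) ≤ (X/Q)/(2 L^A)` (`∑_{m ≤ M} 1/m ≤ 2 L`). BAD `m`: there are `1 ≤ r_m ≤ R1 := ⌊L^(B1+1)⌋₊` and `b_m` with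
`|d! θ (m Q)^d - b_m/r_m| ≤ L^(B1+1)/Y_m^d`, so `|θ - b_m/D_m| ≤ L^(B1+1)/X^d`, `D_m = K m^d r_m ≤ X^(d/4)` for large `X`. If `m, m'` are
bad then `|b_m/D_m - b_m'/D_m'| ≤ 2 L^(B1+1)/X^d < 1/(D_m D_m')`, so the two fractions are equal. If there is no bad `m` we are
done. Otherwise let `q` be the denominator (in lowest terms) of the common value `ρ`; `q ∣ D_m` for all bad `m`. Let
`e = gcd(q, K^2)`, `q1 = q/e ≥ 1`. For bad `m`: `q ∣ K (m^d r_m)`, so `q/gcd(q, K) ∣ m^d r_m`, and `q1 ∣ q/gcd(q, K)` as `gcd(q, K) ∣ e`.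
Case `q1 ≤ L^B2`: `q ∣ K^2 q1`, so `ρ = b/(K^2 q1)` with an integer `b`, `K^2 q1 = (d!)^2 q1 Q^(2d)`: `Maj d B X Q f`.
Case `q1 > L^B2`: for `1 ≤ r ≤ R1` let `s_r` be from `R_sr` for `q1`; the bad `m` with `r_m = r` are multiples of `s_r` and
`s_r^d ≥ q1/r ≥ L^(d (B1+A+5))`, so `s_r ≥ L^(B1+A+5)` and `∑_{m bad} 1/m ≤ ∑_{r ≤ R1} (1/s_r) (1 + log M) ≤ L^(B1+1) L^(-B1-A-5) 2L
≤ 2 L^(-A-3)`. Each bad `m` contributes at most `Y_m ≤ 4X/(m Q)`: together at most `(X/Q)/(2 L^A)`. -/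
def S_t1 : Prop := R_wa → R_sr → R_t1

/-! ### Multiple sums -/

/-- Elementary properties of `MS` and `RL`. -/
def R_ms : Prop :=
  (∀ (k U : ℕ) (Ψ : ℕ → ℕ → ℝ) (s s' p p' : ℕ),
    MS k U Ψ (s + s') (p * p') = MS k U (fun a b => Ψ (a + s') (b * p')) s p) ∧
  (∀ (k U : ℕ) (Ψ Φ : ℕ → ℕ → ℝ), (∀ a b, Ψ a b ≤ Φ a b) → ∀ s p, MS k U Ψ s p ≤ MS k U Φ s p) ∧
  (∀ (k U : ℕ) (I : Finset ℕ) (Ψ : ℕ → ℕ → ℕ → ℝ) (s p : ℕ),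
    MS k U (fun a b => ∑ i ∈ I, Ψ i a b) s p = ∑ i ∈ I, MS k U (Ψ i) s p) ∧
  (∀ (k U : ℕ) (c : ℝ) (Ψ : ℕ → ℕ → ℝ) (s p : ℕ),
    MS k U (fun a b => c * Ψ a b) s p = c * MS k U Ψ s p) ∧
  (∀ (k U n : ℕ) (Ψ : ℕ → ℕ → ℝ), (∀ a b, 0 ≤ Ψ a b) → ∀ s p,
    0 ≤ MS k U Ψ s p ∧ (MS k U Ψ s p) ^ (n + 1) ≤
      ((U : ℝ) ^ k) ^ n * MS k U (fun a b => Ψ a b ^ (n + 1)) s p) ∧
  (∀ (k U V : ℕ) (t : List ℕ) (x : ℝ) (s p : ℕ),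
    MS k U (fun _ b => RL t V (b * x)) s p = RL (List.replicate k U ++ t) V (p * x)) ∧
  (∀ (k V : ℕ) (x : ℝ), RR k V x = RL (List.replicate k V) V x) ∧
  (∀ (t : List ℕ) (V : ℕ) (x : ℝ), RL t V (-x) = RL t V x ∧ 0 ≤ RL t V x ∧
    RL t V x ≤ V * (t.prod : ℝ))

/-- [HW ms] Proof: all by induction on `k` or `t`, generalizing `s, p, x, Ψ`. Fifth: `(∑_{h<U} a_h)^(n+1) ≤ U^n ∑ a_h^(n+1)`
(`inner_le_nnorm_mul_nnorm` is not needed: `pow_sum_div_card_le_sum_pow`, as in `weyl_diff`; if `U = 0` both sides are `0` for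
`k ≥ 1`, for `k = 0` equality). Sixth: `h * (p * x) = (p * h : ℕ) * x`. Last: `mn V (-x) = mn V x` (`round (-x)` may differ from
`-round x` at half integers only: use that `|x - round x|` is the distance to the nearest integer, `abs_sub_round_eq_min` or
`round_neg`-type facts; if `x = round x` then the same for `-x`), `mn_nonneg`, `mn_le`. -/
def S_ms : Prop := R_ms

/-- Weyl's differencing, keeping the linear sums. -/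
def R_wd : Prop := ∀ (k : ℕ) (θ : ℝ) (f : ℕ → ℝ), WP k θ f → ∀ U u : ℕ, 1 ≤ U → u ≤ U →
  ‖∑ y ∈ range u, ex (f y)‖ ^ (2 ^ k) ≤ 2 ^ (2 ^ k - 1) * (U : ℝ) ^ (2 ^ k - (k + 1)) *
    MS k U (fun s p => ‖∑ y ∈ range (u - s),
      ex ((y : ℝ) * (((k + 1).factorial : ℝ) * p * θ))‖) 0 1

/-- [HW wd] (uses ms) Proof: compare `NC.Wy.weyl_diff` (same induction). `k = 0`: `f y = y θ + γ`, equality. Step:
`diff_one`, extended to `h ∈ range U` (`range (u - h)` is empty for `h ≥ u`), raised to the power `2^k` by the power mean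
inequality, and the induction hypothesis for `f_h y = f (y + h) - f y` (`WP k ((k+2) h θ) f_h`), `u - h`. The first part of
`R_ms` (`MS k U Ψ (0 + h) (1 * h)`), `(u - h) - s = u - (s + h)` and `(k+1)! p ((k+2) h θ) = (k+2)! (p h) θ`. -/
def S_wd : Prop := R_ms → R_wd

/-- The sum over all pairs. -/
def R_gw : Prop := ∀ (k U V : ℕ) (φ : ℕ → ℕ → ℝ) (c : ℕ → ℝ) (u : ℕ → ℕ), 1 ≤ U → (∀ i, u i ≤ U) →
  (∀ i1 i2, WP k (c i1 - c i2) (fun y => φ y i1 - φ y i2)) →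
  ∑ i1 ∈ range V, ∑ i2 ∈ range V,
    ‖∑ y ∈ range (min (u i1) (u i2)), ex (φ y i1 - φ y i2)‖ ^ (2 ^ (k + 1)) ≤
  2 ^ (2 ^ (k + 1) - 2) * (U : ℝ) ^ (2 ^ (k + 1) - (k + 2)) *
    MS k U (fun s p => ∑ y1 ∈ range U, ∑ y2 ∈ range U,
      ‖∑ i ∈ (range V).filter (fun i => y1 + s < u i ∧ y2 + s < u i),
        ex (((k + 1).factorial : ℝ) * p * c i * ((y1 : ℝ) - y2))‖ ^ 2) 0 1

/-- [HW gw] (uses ms, wd) Proof: for a pair `(i1, i2)` square `R_wd` (with `u = min (u i1) (u i2) ≤ U`), and use the fifth part of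
`R_ms` with `n = 1`: `‖..‖^(2^(k+1)) ≤ 2^(2^(k+1)-2) U^(2(2^k-k-1)+k) MS k U (fun s p => ‖∑_{y<u-s} ex (y x)‖^2) 0 1`,
`x = (k+1)! p (c i1 - c i2)`; the exponents: `2 (2^k - (k+1)) + k = 2^(k+1) - (k+2)` (`k + 1 ≤ 2^k`). Sum over the pairs and exchange
(third and fourth part). For fixed `s, p`: `‖∑_{y<u-s} ex (y x)‖^2 = ∑_{y1, y2 < U} [y1 + s < u] [y2 + s < u] ex (x (y1 - y2))`, and
`y + s < min (u i1) (u i2)` iff both; so the sum over the pairs of the `i` is `∑_{y1, y2} (∑_i ..) conj(∑_i ..)`, the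
squares of the norms in the statement. -/
def S_gw : Prop := R_ms → R_wd → R_gw

/-- The bound for `TT` by a multiple sum. -/
def R_T : Prop := ∀ d : ℕ, 2 ≤ d → ∃ C : ℕ, ∀ (f : ℝ[X]) (Q m0 l0 U V Y : ℕ), f.natDegree ≤ d →
  1 ≤ U → 1 ≤ V → (TT f Q m0 l0 U V Y) ^ (2 ^ (2 * d - 3)) ≤
    C * ((U : ℝ) * V) ^ (2 ^ (2 * d - 2) - d) *
      GG d U V ((d.factorial : ℝ) ^ 2 * f.coeff d * (Q : ℝ) ^ (2 * d))

/-- [HW T] (uses ms, gw) Proof: `k = d - 1 ≥ 1`. `u i` = the number of the `j < U` with `(m0 + Q j) (l0 + Q i) ≤ Y`; the condition is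
downward closed in `j`, so these `j` are `range (u i)`, and those with both conditions are `range (min (u i1) (u i2))`; `u i` is
nonincreasing in `i`. `φ j i = f((m0 + Q j)(l0 + Q i))`, a polynomial in `j` of degree `≤ d` with coefficient
`c i = θ (Q (l0 + Q i))^d` at `d` (`f.comp (C (m0 (l0 + Q i)) + C (Q (l0 + Q i)) * X)`): `WP k (c i1 - c i2)` by `wp_poly`. Power mean
inequality over the `V^2` pairs and `R_gw`: with `R = MS k U (∑_{y1, y2} ‖..‖^2) 0 1`,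
`TT^(2^k) ≤ (V^2)^(2^k - 1) ∑ ‖..‖^(2^(k+1)) ≤ V^(2^(k+1) - 2) 2^(2^(k+1)) U^(2^(k+1) - (k+2)) R`.
For fixed `s, p, y1, y2` the `i` form a set `range V'`, `V' ≤ V`, and `d! p c i (y1 - y2)` is a polynomial in `i` of degree `≤ d` with
coefficient `d! p θ Q^(2d) (y1 - y2)` at `d`: `wp_poly`, `weyl_diff`: `‖..‖^(2^k) ≤ 2^(2^k-1) V^(2^k - d) RR k V (Θ p (y1 - y2))`,
`Θ = (d!)^2 θ Q^(2d)`. Power mean inequality (fifth part of `R_ms`, and for the sums over `y1, y2`) with the exponent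
`2^(k-1)`: `R^(2^(k-1)) ≤ (U^(k+2))^(2^(k-1) - 1) 2^(2^k) V^(2^k - d) MS k U (∑_{y1, y2} RR k V (Θ p (y1 - y2))) 0 1`. As `RR` is even and
nonnegative, `∑_{y1, y2 < U} RR k V (Θ p (y1 - y2)) ≤ 2 U ∑_{y < U} RR k V (y (p Θ))`, `= 2 U RL (U :: replicate k V) V (p Θ)`, and the
sixth part of `R_ms`: `MS .. ≤ 2 U GG d U V Θ` (`replicate k U ++ U :: t = replicate (k+1) U ++ t`). Together
`TT^(2^k 2^(k-1)) ≤ C V^(e1) U^(e2) GG` with `e1 = (2^(k+1) - 2) 2^(k-1) + 2^k - d = 2^(2k) - d` and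
`e2 = (2^(k+1) - k - 2) 2^(k-1) + (k+2)(2^(k-1) - 1) + 1 = 2^(2k) - d`, `2^k 2^(k-1) = 2^(2d-3)`, `2k = 2d - 2`. (`d ≤ 2^(2d-2)`.) -/
def S_T : Prop := R_ms → R_gw → R_T

/-- The multiple sum as a sum with divisor functions. -/
def R_rl : Prop := ∀ (t : List ℕ) (V : ℕ) (x : ℝ), (∀ U ∈ t, 1 ≤ U) → 1 ≤ V →
  RL t V x ≤ V * (t.prod : ℝ) * (t.map (fun U : ℕ => 1 / (U : ℝ))).sum +
    ∑ m ∈ Icc 1 t.prod, (tk t.length m : ℝ) * mn V (m * x)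

/-- [HW rl] Proof: compare `NC.Wy.RR_le` (same proof). Induction on `t`. `RL (U :: t) V x = RL t V 0 + ∑_{1 ≤ h < U} RL t V (h x)`,
`RL t V 0 ≤ V t.prod = V (U t.prod) (1/U)` (easy induction, `mn_le`), the main terms by the induction hypothesis, and
`∑_{1 ≤ h < U} ∑_{m ≤ t.prod} tk k m mn V (m h x) ≤ ∑_{m ≤ U t.prod} tk (k+1) m mn V (m x)` as in `RR_le`. -/
def S_rl : Prop := R_rl

/-- The bound for `GG` if `x` has a rational approximation. -/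
def R_gb : Prop := ∀ (d U V r : ℕ) (x : ℝ) (b : ℤ), 2 ≤ d → 1 ≤ U → 1 ≤ V → 0 < r →
  IsCoprime b (r : ℤ) → |x - b / r| ≤ 1 / (r : ℝ) ^ 2 →
  GG d U V x ≤ ((U : ℝ) * V) ^ d * (2 * d * (1 / U + 1 / V) +
    3 * (1 + Real.log ((U : ℝ) ^ d * (V : ℝ) ^ (d - 1))) ^ ((2 * d - 1) * (2 * d - 1)) *
      (1 + Real.log r) * Real.sqrt (1 / r + 1 / V + 1 / ((U : ℝ) ^ d * (V : ℝ) ^ (d - 1)) +
        r / ((U : ℝ) * V) ^ d))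

/-- [HW gb] (uses rl) Proof: `t = replicate d U ++ replicate (d-1) V`, `W = t.prod = U^d V^(d-1)`, `t.length = 2d - 1`, `V W = (U V)^d`,
`∑ 1/U_i = d/U + (d-1)/V`. By `R_rl` it remains to bound `S = ∑_{m ≤ W} tk (2d-1) m mn V (m x)`: Cauchy, `tk_sq`, `mn^2 ≤ V mn`, `SP80.sw3`
(as in `NC.Wy.sum_tk_mn`): `S^2 ≤ (W (1 + log W)^((2d-1)^2)) (6 V (W/r + 1)(V + r (1 + log r)))
≤ 6 (V W)^2 (1 + log W)^((2d-1)^2) (1 + log r) (1/r + 1/V + 1/W + r/(V W))`. Take square roots (`√6 ≤ 3`; `√y ≤ y` for `y ≥ 1`). -/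
def S_gb : Prop := R_rl → R_gb

/-! ### Type II sums -/

/-- Cauchy's inequality, twice, in every residue class. -/
def R_cs : Prop := ∀ (f : ℝ[X]) (Q a M L Y : ℕ) (α β : ℕ → ℂ) (T : ℝ), 1 ≤ Q → a.Coprime Q →
  (∀ m0 l0 : ℕ, TT f Q m0 l0 (M / Q + 1) (L / Q + 1) Y ≤ T) →
  ‖BS f Q a M L Y α β‖ ^ 4 ≤
    ((∑ m ∈ Ioc M (2 * M), ‖α m‖ ^ 2) * ∑ l ∈ Ioc L (2 * L), ‖β l‖ ^ 2) ^ 2 * T

/-- [HW cs] Proof: `U = M/Q + 1`, `V = L/Q + 1`. Only `m` coprime to `Q` contribute (`m l ≡ a`); group them by their class `μ`; then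
`l` is in one class `λ(μ)`, and `μ ↦ λ(μ)` is injective. For one `μ`: the `m ∈ (M, 2M]`, `m ≡ μ`, are the `m0 + Q j ≤ 2M`, `j ∈ range U`,
`M < m0 ≤ M + Q` (for the `j` with `m0 + Q j > 2M` put `α' = 0`), in the same way `l = l0 + Q i`, `i ∈ range V`. With
`S_μ = ∑_{j<U} ∑_{i<V} α'_j β'_i [m l ≤ Y] ex(f(m l))`: `|S_μ|^2 ≤ A_μ ∑_j |∑_i β'_i [..] ex(..)|^2
= A_μ ∑_{i1, i2} β'_{i1} conj(β'_{i2}) ∑_j [..][..] ex(f(..) - f(..)) ≤ A_μ (∑_{i1,i2} |β'_{i1}|^2 |β'_{i2}|^2)^(1/2) TT^(1/2) ≤ A_μ B_μ T^(1/2)`,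
`A_μ = ∑_{m ≡ μ} |α|^2`, `B_μ = ∑_{l ≡ λ(μ)} |β|^2`. So `|S| ≤ ∑_μ (A_μ B_μ)^(1/2) T^(1/4) ≤ (∑_μ A_μ)^(1/2) (∑_μ B_μ)^(1/2) T^(1/4)`, and
`∑_μ A_μ`, `∑_μ B_μ` are at most the full sums. (`T ≥ TT ≥ 0`.) -/
def S_cs : Prop := R_cs

/-- One block. -/
def R_t2 : Prop := ∀ d A : ℕ, 2 ≤ d → ∃ B : ℕ, ∀ᶠ X : ℝ in atTop, ∀ (Q a M L Y : ℕ) (f : ℝ[X])
  (α β : ℕ → ℂ), 1 ≤ Q → (Q : ℝ) ≤ X ^ (1 / 500 : ℝ) → a.Coprime Q → f.natDegree ≤ d →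
  X ^ (1 / 11 : ℝ) ≤ M → X ^ (1 / 11 : ℝ) ≤ L → ((M * L : ℕ) : ℝ) ≤ 2 * X →
  ∑ m ∈ Ioc M (2 * M), ‖α m‖ ^ 2 ≤ M * (Real.log X) ^ 6 →
  ∑ l ∈ Ioc L (2 * L), ‖β l‖ ^ 2 ≤ L * (Real.log X) ^ 6 →
  ‖BS f Q a M L Y α β‖ ≤ X / Q / (Real.log X) ^ A ∨ Maj d B X Q f

/-- [HW t2] (uses T, gb, cs) Proof: write `ℓ = log X`. `C` from `R_T`, `e = 2^(2d-3)` (so `2^(2d-2) = 2e`), `C1 = A + 7`, `C2 = e (4A + 60)`,
`B = C1 d + 2 (C2 + (2d-1)^2 + 6)`. `U = M/Q + 1 ≤ 2M/Q`, `V = L/Q + 1 ≤ 2L/Q` (`Q ≤ M, L`), `U ≥ M/Q ≥ X^(1/12)`, `V ≥ X^(1/12)`.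
CASE `M L < X/ℓ^C1`: `TT ≤ (U V)^2` (trivially), `R_cs`: `‖BS‖^4 ≤ (M L)^2 ℓ^24 16 (M L)^2/Q^4 ≤ 16 (X/Q)^4 ℓ^(24 - 4 C1) ≤ (X/Q)^4 ℓ^(-4A)`.
CASE `M L ≥ X/ℓ^C1`: let `x = (d!)^2 θ Q^(2d)`, `K = ⌊X^d/(Q^(2d) ℓ^B)⌋₊ ≥ 1`; Dirichlet: `1 ≤ r ≤ K`, `(b, r) = 1`, `|x - b/r| ≤ 1/((K+1) r)`. If
`r < ℓ^B`: `|θ - b/((d!)^2 r Q^(2d))| ≤ 1/((K+1) r (d!)^2 Q^(2d)) ≤ ℓ^B/X^d`, so `Maj d B X Q f`. If `r ≥ ℓ^B`: `R_gb`, where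
`1/U + 1/V ≤ 2 X^(-1/12)`, `1/r ≤ ℓ^(-B)`, `r/(U V)^d ≤ K Q^(2d)/(M L)^d ≤ ℓ^(C1 d - B)`, `log W ≤ 3 d ℓ`, `1 + log r ≤ 2 d ℓ`: for large `X`,
`GG ≤ (U V)^d ℓ^((2d-1)^2 + 4 - (B - C1 d)/2) ≤ (U V)^d ℓ^(-C2)`. So `TT^e ≤ C (U V)^(2e) ℓ^(-C2)`, `TT ≤ (U V)^2 C ℓ^(-4A-60)`, and by `R_cs`
`‖BS‖^4 ≤ (M L)^2 ℓ^24 16 (M L)^2/Q^4 C ℓ^(-4A-60) ≤ (X/Q)^4 ℓ^(-4A)` for large `X` (`M L ≤ 2X`). -/
def S_t2 : Prop := R_T → R_gb → R_cs → R_t2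

/-! ### The primes -/

/-- The von Mangoldt function. -/
def R_La : Prop := ∀ d A : ℕ, 2 ≤ d → ∃ B : ℕ, ∀ᶠ X : ℝ in atTop, ∀ (Q a Y : ℕ) (f : ℝ[X]),
  1 ≤ Q → (Q : ℝ) ≤ X ^ (1 / 500 : ℝ) → a.Coprime Q → f.natDegree ≤ d → (Y : ℝ) ≤ 2 * X →
  ‖∑ t ∈ (Icc 1 Y).filter (fun t => t ≡ a [MOD Q]),
    (vonMangoldt t : ℂ) * ex (f.eval (t : ℝ))‖ ≤ X / Q / (Real.log X) ^ A ∨ Maj d B X Q f

/-- [HW La] (uses t1, t2, CH.D vau) Proof: compare `GC/P/La.lean`. `B` = the maximum of the two `B` of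
`R_t1` and `R_t2` for `A + 4` (`Maj` is monotone in `B` for `log X ≥ 1`); suppose `Maj d B X Q f` is false. `U = V = ⌊X^(1/10)⌋₊`. The
`t ≤ U` contribute at most `U log U`. `CH.D.R_vau` with `X := Y` and `w t = ex (f t)` if `U < t ≤ Y` and `t ≡ a (Q)`, else `0` (if
`Y ≤ U` there is nothing to do). `T1 = ∑_{m ≤ V} c m ∑_l log l w(m l)`: Abel summation, the inner sum (over `U/m < l ≤ Y/m`) is at
most `4 log(2X)` times the norm of a partial sum `∑_{l ≤ v m, m l ≡ a} ex (f (m l))` for a suitable `v m ≤ Y/m` (the one with the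
largest norm), so `R_t1` with `M = V` gives `|T1| ≤ 4 log(2X) (X/Q)/L^(A+4)`. `T2`: `|d m| ≤ log m ≤ L`, `m ≤ U V ≤ X^(1/5)`: the same.
`T3`: the blocks `(M_i, 2M_i] × (L_j, 2L_j]`, `M_i = 2^i U`, `L_j = 2^j V`, with `M_i L_j ≤ Y ≤ 2X` (the other ones are empty), at most
`(2L)^2` of them, each is a `BS` with `α m = Λ m [m > U]`, `β = e` (`β l = 0` for `l ≤ V`); `∑ Λ^2 ≤ M (log 4X)^2 ≤ M L^6`,
`∑ e^2 ≤ ∑_{l ≤ 2L_j} τ(l)^2 ≤ 2 L_j (1 + log 2L_j)^3 ≤ L_j L^6` (`sum_tau_sq`, `Lib/MP_89da58_nt/LargeArith.lean`), `R_t2`. -/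
def S_La : Prop := R_t1 → R_t2 → CH.D.R_vau → R_La

/-- The primes with a weight of bounded variation. -/
def R_hw : Prop := ∀ d A : ℕ, 2 ≤ d → ∃ B : ℕ, ∀ᶠ X : ℝ in atTop, ∀ (Q a : ℕ) (f : ℝ[X]),
  1 ≤ Q → (Q : ℝ) ≤ X ^ (1 / 500 : ℝ) → a.Coprime Q → f.natDegree ≤ d →
  (∀ (h : ℕ → ℝ) (V : ℝ), |h 0| ≤ V → ∑ y ∈ range ⌊2 * X⌋₊, |h (y + 1) - h y| ≤ V →
    ‖∑ t ∈ (Icc 1 ⌊2 * X⌋₊).filter (fun t => t ≡ a [MOD Q]),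
      ((thP t * h t : ℝ) : ℂ) * ex (f.eval (t : ℝ))‖ ≤ V * (X / Q / (Real.log X) ^ A)) ∨
  Maj d B X Q f

/-- [HW hw] (uses La) Proof: `B` from `R_La` for `A + 1`; suppose `Maj` is false. `Λ - thP ≥ 0`, `∑_{t ≤ 2X} (Λ - thP) ≤ C √X log X`
(`Chebyshev.abs_psi_sub_theta_le_sqrt_mul_log` or similar, compare `CH/D/p_pp.lean`, `GC/P/mA.lean`) `≤ (X/Q)/L^(A+1)`. So all the
partial sums of `z t = [t ≥ 1, t ≡ a] thP t ex (f t)` up to `2X` have norm at most `2 (X/Q)/L^(A+1)`. `NC.Wy.abel` with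
`Y = u = ⌊2X⌋₊ + 1` and `h' t = h (min t ⌊2X⌋₊)`: at most `3 V * 2 (X/Q)/L^(A+1) ≤ V (X/Q)/L^A` for large `X`. -/
def S_hw : Prop := R_La → R_hw

end Pool.Agent.HC.W
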