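import Pool.Agent.Lib.MP_0da313_nt.HC.Defs
import Pool.Agent.Lib.MP_0da313_nt.HC.W
import Pool.Agent.Lib.MP_0da313_nt.NC.E

set_option autoImplicit false

/-!
Project HC, section E (the analytic part): from the exponential sums over primes (`HC/W.lean`) and the major
arcs of `NC/G.lean` to the interface `HC.R_EX2` (`HC/Defs.lean`). `R_x` is the conclusion, `S_x` the statement to be
proved (with the results it uses as hypotheses).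

`H : HC.Fam2 ι κ D d E`, `F = H.F : NC.Fam ι D d E`, `F.L n l x = F.a l * n + (F.g l)(x)`, `F.t l = F.a l + coeff_d (F.g l) * F.s`,
`F.wh N x = wd (1000 d E) ((F.s N)^(1/d)) x`, `H.M j x = H.u j * x + H.v j`. The block of `N` is `N < n ≤ Bn E N`,
`Hn d N = ⌊N^(1/d)⌋₊`. The statements are the analogues of those of `NC/E.lean` (proofs: `NC/P/*.lean`), with the
additional factor `thP (H.M j x)`.
-/

namespace Pool.Agent.HC.E

open Finset Filter Polynomial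
open Pool.Agent.MP89da58 (kapD tri)
open Pool.Agent.CH (thP)
open Pool.Agent.CM (wd)
open Pool.Agent.SP80 (ex)
open Pool.Agent.TC (Lw wN)
open Pool.Agent.GC (tz Pm)
open Pool.Agent.NC (Hn Bn)
open Pool.Agent.NC.G (EL Rn)
open Pool.Agent.HC (Fam2 Cq2 Er2 ErS2)

/-- The constant `(d!)^2 |coeff_d g_l| (u_j)^d`. -/
def cc2 {ι κ : Type} [Fintype ι] [DecidableEq ι] [Fintype κ] [DecidableEq κ] {D d E : ℕ}
    (H : Fam2 ι κ D d E) (l : ι) (j : κ) : ℕ :=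
  d.factorial ^ 2 * ((H.F.g l).coeff d).natAbs * H.u j ^ d

/-- The exponential sum over the window. -/
noncomputable def Gh2 {ι κ : Type} [Fintype ι] [DecidableEq ι] [Fintype κ] [DecidableEq κ]
    {D d E : ℕ} (H : Fam2 ι κ D d E) (N : ℕ) (l : ι) (j : κ) (q c : ℕ) (α : ℝ) : ℂ :=
  ∑ x ∈ (Icc 1 (Hn d N)).filter (fun x => x ≡ c [MOD q]),
    ((H.F.wh N x * thP (H.M j x).toNat : ℝ) : ℂ) * ex (-α * (((H.F.g l).eval (x : ℤ) : ℤ) : ℝ))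

/-- The trivial bound and the minor arcs. -/
def R_gmi2 : Prop := ∀ (ι κ : Type) [Fintype ι] [DecidableEq ι] [Fintype κ] [DecidableEq κ]
  (D d E : ℕ) (H : Fam2 ι κ D d E) (l : ι) (j : κ) (A : ℕ), ∃ B : ℕ, ∀ᶠ N : ℕ in atTop,
  ∀ (q c : ℕ) (α : ℝ), 1 ≤ q → (q : ℝ) ≤ (N : ℝ) ^ (1 / (1000 * d) : ℝ) →
  IsCoprime (q : ℤ) (H.M j c) →
  ‖Gh2 H N l j q c α‖ ≤ 2 * Real.log N * (N : ℝ) ^ (1 / (d : ℝ)) / q ∧
  (‖Gh2 H N l j q c α‖ ≤ (N : ℝ) ^ (1 / (d : ℝ)) / q / (Real.log N) ^ A ∨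
    ∃ m ∈ Icc 1 ⌊(Real.log N) ^ B⌋₊, ∃ b : ℤ,
      |α - b / ((cc2 H l j * m * q ^ (2 * d) : ℕ) : ℝ)| ≤ (Real.log N) ^ B / N)

/-- [HE gmi2] (uses HC W hw, NE loc) Proof: compare `NE gmi` (`NC/P/gmi.lean`). `u = H.u j ≥ 1`, `v = H.v j`, `H0 = Hn d N`, `Y = N^(1/d)`, `d ≥ 2`. First
claim: at most `Y/q + 1 ≤ 2Y/q` terms, `0 ≤ wh ≤ 1`, `0 ≤ thP (M_j x) ≤ log (u Y + |v|) ≤ log N` for large `N`. Second: `B = B1 + 1`,
`B1` from `R_hw` for `A + 1`, at `X = (u + 1) Y`, `Q = u q ≤ X^(1/500)`. The map `x ↦ t = u x + v` is a bijection from the integers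
`x ≡ c (q)` onto the `t ≡ u c + v (u q)`; `a` = the residue of `u c + v` modulo `u q`, coprime to `u q` (`H.huv`, and `H.M j c` is
coprime to `q`). Let `h t = tri (1000 d E log ((t - v)/(u F.X N)))` if `v + u ≤ t` (i.e. `x ≥ 1`) and else `0`: `h (u x + v) = F.wh N x`
for `x ≥ 1`; for large `N` it is `0` near `t = 0` and for `t` beyond `u H0 + v` (first part of `NC.E.R_loc`), increasing and then
decreasing, with values in `[0, 1]`, so `V = 4` works, and `u H0 + v ≤ 2X`. `f(t) = -α g_l((t - v)/u)` is a real polynomial of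
degree `≤ d` with `coeff_d f = -α A0/u^d`, `A0 = coeff_d g_l ≠ 0`. So `Gh2 = ∑_{t ≤ 2X, t ≡ a (Q)} thP t h t ex(f t)` (terms with
`wh = 0` vanish). First alternative of `R_hw`: `≤ 4 X/Q/(log X)^(A+1) ≤ Y/q/(log N)^A` for large `N` (`X/Q ≤ 2Y/q`,
`log X ≥ log N/(2d)`). Second: `m ≤ (log X)^B1 ≤ (log N)^B` and `|θ - b/((d!)^2 m Q^(2d))| ≤ (log X)^B1/X^d ≤ (log N)^B1/N`,
`θ = -α A0/u^d`, `Q^(2d) = u^(2d) q^(2d)`; multiply by `u^d/|A0|`: `|α - b'/(cc2 m q^(2d))| ≤ (u^d/|A0|) (log N)^B1/N ≤ (log N)^B/N`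
with `b' = ∓ b` (`(u^d/A0)/((d!)^2 m u^(2d) q^(2d)) = ± 1/((d!)^2 |A0| u^d m q^(2d))`). -/
def S_gmi2 : Prop := W.R_hw → NC.E.R_loc → R_gmi2

/-- One modulus and one class of `n` and `x`. -/
def R_sgq2 : Prop := ∀ (ι κ : Type) [Fintype ι] [DecidableEq ι] [Fintype κ] [DecidableEq κ]
  (D d E : ℕ) (H : Fam2 ι κ D d E) (l : ι) (j : κ) (A : ℕ), ∃ (B : ℕ) (C : ℝ), 0 ≤ C ∧
  ∀ᶠ N : ℕ in atTop, ∀ (w k q ν c : ℕ) (M : ℝ),
  Pm (H.F.t l * N) (1 / 100) 1 w k → Squarefree q → (q : ℝ) ≤ (N : ℝ) ^ (1 / (1000 * d) : ℝ) →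
  IsCoprime (q : ℤ) (H.F.L ν l c * H.M j c) → 0 ≤ M →
  (∀ (m s : ℕ) (β : ℝ), 1 ≤ m → (m : ℝ) ≤ (Real.log N) ^ B → s.Coprime q →
    |β| ≤ (Real.log N) ^ B / N → ‖EL w (H.F.t l * N) (cc2 H l j * m * q ^ (2 * d)) s β‖ ≤ M) →
  ∑ n ∈ (Ioc N (Bn E N)).filter (fun n => n ≡ ν [MOD q]), |Er2 H N w n l j q c| ≤
    C * ((N : ℝ) ^ (1 / (d : ℝ)) * (N * Real.log N / (q ^ 2 * (Real.log N) ^ A) +
      (Real.log N) ^ (2 * B + 1) * (q ^ (2 * d - 2) * M)))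

/-- [HE sgq2] (uses gmi2, NE loc, NC G spl) Proof: that of `NE sgq` (`NC/P/esgq.lean`) with `h x = F.wh N x * thP (H.M j x).toNat`.
`B` from `R_gmi2` for `A`; `t = F.t l > 0`, `X = t N`, `Y = N^(1/d)`, `L = log N`, `a = F.a l`, `g x = (F.g l)(x)`. Let `r` be the residue
modulo `q` of `F.L ν l c`, coprime to `q` (`IsCoprime` for the product gives it for both factors, `IsCoprime.of_mul_right_left`);
`Sn` the `n ≡ ν (q)` of the block, `Sx = {x ≤ Hn, x ≡ c (q)}`, `Sk = {1 ≤ k ≤ 2X, k ≡ r (q)}`, `F k = (thP k - Lw w k) tz(k/X)`. For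
`n ∈ Sn`, `x ∈ Sx` with `wh ≠ 0`: `k = (F.L n l x).toNat ∈ Sk`, `tz(k/X) = 1` (`NC.E.R_loc`), so `Er2 H N w n l j q c = Rn a g Sk Sx F h n`.
Apply `R_spl` with `T = ⌊L^B⌋₊`, `Q m = cc2 m q^(2d)` (`cc2 ≥ 1`), `ρ = L^B/N`, `ε = Y/q/L^A`, `G0 = 2 L Y/q`; for `m ≤ T` and `s` the sum
over the `k ∈ Sk`, `k ≡ s (Q m)` is `EL w X (Q m) s β` if `s ≡ r (q)` (then `s` is coprime to `q`), else it is `0`.
`∑ F k^2 ≤ C1 (N/q) L^2`. So `∑_{Sn} Er2^2 ≤ (Y^2/q^2) L^(-2A) C1 (N/q) L^2 + 4 L^2 (Y^2/q^2) 3 (L^B/N) cc2^2 L^(3B) q^(4d-1) M^2`, and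
by Cauchy with `|Sn| ≤ 2N/q`: `∑ |Er2| ≤ (2N/q)^(1/2) (∑ Er2^2)^(1/2)`, `(x + y)^(1/2) ≤ x^(1/2) + y^(1/2)`; the second part is
`≤ C Y L^(2B+1) q^(2d-2) M`. -/
def S_sgq2 : Prop := NC.E.R_loc → R_gmi2 → NC.G.R_spl → R_sgq2

/-- One modulus. -/
def R_qs2 : Prop := ∀ (ι κ : Type) [Fintype ι] [DecidableEq ι] [Fintype κ] [DecidableEq κ]
  (D d E : ℕ) (H : Fam2 ι κ D d E) (l : ι) (j : κ) (A : ℕ), ∃ (B : ℕ) (C : ℝ), 0 ≤ C ∧
  ∀ᶠ N : ℕ in atTop, ∀ (w k q : ℕ) (M : ℝ),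
  Pm (H.F.t l * N) (1 / 100) 1 w k → Squarefree q → (q : ℝ) ≤ (N : ℝ) ^ (1 / (1000 * d) : ℝ) →
  0 ≤ M →
  (∀ (m s : ℕ) (β : ℝ), 1 ≤ m → (m : ℝ) ≤ (Real.log N) ^ B → s.Coprime q →
    |β| ≤ (Real.log N) ^ B / N → ‖EL w (H.F.t l * N) (cc2 H l j * m * q ^ (2 * d)) s β‖ ≤ M) →
  ∑ n ∈ Ioc N (Bn E N), ∑ c ∈ Cq2 H n q l j, |Er2 H N w n l j q c| ≤
    C * ((D : ℝ) ^ q.primeFactors.card * ((N : ℝ) ^ (1 / (d : ℝ)) *
      (N * Real.log N / (q * (Real.log N) ^ A) +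
        (Real.log N) ^ (2 * B + 1) * (q ^ (2 * d - 1) * M))))

/-- [HE qs2] (uses sgq2, NE cq) Proof: that of `NE qs` (`NC/P/eqs.lean`): group the `n` by their class `ν ∈ range q` (`N ≥ F.N0`). For a
class which occurs let `n0` be one of its elements: by `F.hper`, and as `F.L n l c` modulo `q` only depends on `n` modulo `q`
(`H.M j c` does not depend on `n`), `Cq2 H n q l j = Cq2 H n0 q l j` for all `n ≡ n0 (q)` of the block. Exchange the sums over `n`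
and `c`, and use `R_sgq2` with `ν := n0` for each `c` (the coprimality is in the definition of `Cq2`); `Cq2 H n q l j ⊆ NC.Cq F n q l`
(the first factor of the product is coprime to `q`), so `NC.E.R_cq` bounds the number of the `c`; there are `q` classes, and
`q * q^(2d-2) = q^(2d-1)` (`d ≥ 2`). -/
def S_qs2 : Prop := R_sgq2 → NC.E.R_cq → R_qs2

/-- [HE EX2] (uses qs2, NC G mjL, TE pm) The interface `HC.R_EX2`. Proof: that of `NE EX` (`NC/P/eEX.lean`). Given `A`, `b`;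
`t = F.t l > 0` (`F.ht`), `X = t N`. `A1 = 2A + b D + 3`; `B`, `C` from `R_qs2` for `A1`; `K0` from `NC.G.R_mjL` with `2 d` in place of `d`,
`c0 = cc2 H l j ≥ 1` (`F.hg`, `F.hd`, `H.hu`), `A2 = 2A + 2B + 3`, `b := b D`, `B := B + 1`; `B0 = max K0 1 + 1`. For `B1 ≥ B0` and large
`N`, `w = wN B1 N`: `k` from `TC.E.R_pm` with `max K0 1`; `Pm` is monotone in `K0` for large `X`. `e q` = the function of `R_mjL` at
`X`. For `q` squarefree, `q ≤ N^(1/(1000 d)) ≤ X^(1/(100 (2d)))`, `R_qs2` applies with `M = e q` (`(log N)^B ≤ (log X)^(B+1)`,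
`(log N)^B/N ≤ (log X)^(B+1)/X` for large `N`). So with `L = log N`, `Y = N^(1/d)`:
`∑_n ErS2 H N w n b l j ≤ ∑_q b^ω(q) C D^ω(q) Y (N L/(q L^A1) + L^(2B+1) q^(2d-1) e q)
≤ C Y N L^(1-A1) (1 + L)^(b D) + C Y L^(2B+1) X/(log X)^A2 ≤ Y N/L^(2A)` for large `N` (`sum_omega_le`,
`MP_89da58_nt/BvW.lean`). If more than `N/L^A` of the `n` had `ErS2 > Y/L^A` the sum would be more than `Y N/L^(2A)`. -/
def S_EX2 : Prop := R_qs2 → NC.G.R_mjL → TC.E.R_pm → HC.R_EX2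

end Pool.Agent.HC.E
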