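import Pool.Agent.Lib.MP_0da313_nt.HC.M

set_option autoImplicit false

/-!
Project HC, section F: the weights, the numerical inequality, the final count for a good `n`, the family data
and the final theorem.

Notation for the docstrings: `z = z0 D n'`, `κ = kapD z`, `V = H.F.V n n'`, `K1 = |ι|`, `K2 = |κ|`, `H0 = Hn d N`,
`x0 = N^(1/d)`, `m = mN H.F N`. Compare `NC/F.lean` (proofs: `NC/R/*.lean`) and `TC/F.lean` (proofs: `TC/P/*.lean`).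
-/

namespace Pool.Agent.HC.F

open Finset Filter Polynomial
open ArithmeticFunction (cardFactors)
open Pool.Agent.MP89da58 (bil pw nn supp part kapD tri)
open Pool.Agent.MT (PJf dvI ZI)
open Pool.Agent.BVall (om PK lev RepB Dens)
open Pool.Agent.Lib.MP_0da313_nt (Admissible lineRestrict val singV W)
open Pool.Agent.CH (thP)
open Pool.Agent.CM (z0)
open Pool.Agent.CM.F (Pre)
open Pool.Agent.TC (wN)
open Pool.Agent.TC.W (qf WP2 ten)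
open Pool.Agent.NC (Hn Bn ErS)
open Pool.Agent.NC.Q (qr)
open Pool.Agent.NC.A (sl Par3)
open Pool.Agent.NC.M (mN)
open Pool.Agent.HC (Fam2 ErS2 DN2 rn2 rp2 Wt4)

/-! ### The weights -/

/-- The system of weights for two clusters: `g` are the full weights, `g1 i` those without the member `i` of
the first cluster, `g2 j` those without the member `j` of the second cluster, `g12 i j` those without both.
`e` is a bound for the errors. -/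
structure Sys2 {ι κ : Type} [Fintype ι] [DecidableEq ι] [Fintype κ] [DecidableEq κ] {P : Finset ℕ}
    (d N B : ℕ) (κn e τ₁ τ₂ : ℝ) (g : (PJf P → Option (ι ⊕ κ)) → ℝ)
    (g1 : ι → (PJf P → Option (ι ⊕ κ)) → ℝ) (g2 : κ → (PJf P → Option (ι ⊕ κ)) → ℝ)
    (g12 : ι → κ → (PJf P → Option (ι ⊕ κ)) → ℝ) (a₁ a₂ β₁ β₂ : ℝ) : Prop where
  bd : ∀ α, |g α| ≤ B
  w1 : ∀ i, Wt4 d N B (g1 i) ∧ ∀ α, g1 i α ≠ 0 → ∀ p, α p ≠ some (Sum.inl i)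
  w2 : ∀ j, Wt4 d N B (g2 j) ∧ ∀ α, g2 j α ≠ 0 → ∀ p, α p ≠ some (Sum.inr j)
  w12 : ∀ i j, Wt4 d N B (g12 i j) ∧
    ∀ α, g12 i j α ≠ 0 → ∀ p, α p ≠ some (Sum.inl i) ∧ α p ≠ some (Sum.inr j)
  l1 : ∀ i (Dd : PJf P → ι ⊕ κ → ℤ → Prop) (y : ℤ),
    (∀ p s s', s ≠ s' → ¬ (Dd p s y ∧ Dd p s' y)) → (∀ p, ¬ Dd p (Sum.inl i) y) →
    ZI Dd g y = ZI Dd (g1 i) y
  l2 : ∀ j (Dd : PJf P → ι ⊕ κ → ℤ → Prop) (y : ℤ),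
    (∀ p s s', s ≠ s' → ¬ (Dd p s y ∧ Dd p s' y)) → (∀ p, ¬ Dd p (Sum.inr j) y) →
    ZI Dd g y = ZI Dd (g2 j) y
  l12 : ∀ i j (Dd : PJf P → ι ⊕ κ → ℤ → Prop) (y : ℤ),
    (∀ p s s', s ≠ s' → ¬ (Dd p s y ∧ Dd p s' y)) → (∀ p, ¬ Dd p (Sum.inl i) y) →
    (∀ p, ¬ Dd p (Sum.inr j) y) → ZI Dd g y = ZI Dd (g12 i j) y
  a1 : 1 ≤ a₁
  a2 : 1 ≤ a₂
  b1 : Fintype.card ι * (τ₁ * κn * a₁) ≤ β₁
  b2 : Fintype.card κ * (τ₂ * κn * a₂) ≤ β₂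
  s12 : β₁ * β₂ - e ≤ ∑ i, ∑ j, qf (g12 i j)
  s1 : ∑ i, qf (g1 i) ≤ β₁ * (2 * a₂) + e
  s2 : ∑ j, qf (g2 j) ≤ 2 * a₁ * β₂ + e

/-- Existence of the weights. -/
def R_sys2 : Prop := ∃ c : ℝ, 0 < c ∧ c ≤ 1 ∧ ∀ (ι κ : Type) [Fintype ι] [DecidableEq ι]
  [Nonempty ι] [Fintype κ] [DecidableEq κ] [Nonempty κ], ∃ M : ℕ, 1 ≤ M ∧ ∀ B0 : ℕ, 1 ≤ B0 →
  ∃ B : ℕ, 1 ≤ B ∧ ∀ (D d E A : ℕ) (H : Fam2 ι κ D d E), 1 ≤ D → ∀ᶠ N : ℕ in atTop, ∀ n' : ℕ,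
  N ≤ z0 D n' ^ B0 → (lev (2 * D) n' : ℝ) ^ (3 * M) ≤ (Hn d N : ℝ) ^ (1 / 10000 : ℝ) →
  ∃ (P : Finset ℕ) (τ₁ τ₂ : ℝ) (g : (PJf P → Option (ι ⊕ κ)) → ℝ)
    (g1 : ι → (PJf P → Option (ι ⊕ κ)) → ℝ) (g2 : κ → (PJf P → Option (ι ⊕ κ)) → ℝ)
    (g12 : ι → κ → (PJf P → Option (ι ⊕ κ)) → ℝ) (a₁ a₂ β₁ β₂ : ℝ),
    Par3 H.F B0 N n' P ∧
    Sys2 d N B (kapD (z0 D n') * Real.log (Hn d N)) (1 / (Real.log N) ^ A) τ₁ τ₂ g g1 g2 g12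
      a₁ a₂ β₁ β₂ ∧
    (c / (Fintype.card ι * B0) ≤ τ₁ ∧ τ₁ ≤ 1 ∧
      c * Real.log (Fintype.card ι) ≤ Fintype.card ι * τ₁) ∧
    (c / (Fintype.card κ * B0) ≤ τ₂ ∧ τ₂ ≤ 1 ∧
      c * Real.log (Fintype.card κ) ≤ Fintype.card κ * τ₂)

/-- [HF sys2] (uses TC W wpg, tz, tsup, bt, CM W pr) Proof: compare `TC sys` (`TC/P/sys.lean`) and `NS sy` (`NC/R/sy.lean`). `c` from
`R_wpg`, `M_s` from `R_wpg` for `ι`, `κ` (`s = 1, 2`), `M = M1 M2`; everything is applied with `n := H0 = Hn d N → ∞` (`d ≥ 2`, `H.F.hd`),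
`H0 ≤ N ≤ z^B0`. `y0 = ⌊H0^(1/(10000 M))⌋₊`, `R = y0^M ≤ H0^(1/10000)`. As `z ≤ lev (2D) n'` (`z0_le_lev`, `CM/P/app.lean`),
`z^M ≤ lev^(3M) ≤ H0^(1/10000)`, so `z ≤ y0`. `y_1 = y0^(M2)`, `y_2 = y0^(M1)`, so `y_s^(M_s) = R`, `z ≤ y0 ≤ y_s`, and
`log H0 ≤ 20000 M log y0 = 20000 M_s log y_s` for large `H0`. `P` = the primes `p` with `z < p ≤ R`, `Ex = ∅`. `Par3`: `lev^3 ≤ lev^(3M)`
(`lev ≥ 1`), `p ≤ R ≤ H0^(1/10000)`. `R_wpg` gives `lam_s, lami_s, A_s, τ_s`, `B = B0^(K1) * B0^(K2)`. `g = ten lam_1 lam_2`,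
`g1 i = ten (lami_1 i) lam_2`, `g2 j = ten lam_1 (lami_2 j)`, `g12 i j = ten (lami_1 i) (lami_2 j)`, `a_s = A_s`,
`β_s = ∑_i qf (lami_s i)`. `bd, w1, w2, w12` from `R_tsup` (supports `≤ R * R ≤ H0^(1/5000)`; if `g1 i α ≠ 0` then
`part α (inl i) = part (fL α) i = ∅`, so `α p ≠ some (inl i)`). Links: `R_tz` (for conditions which exclude each other at `y`) gives
`ZI Dd g y = ZI .. lam_1 y * ZI .. lam_2 y` (with the restricted conditions) etc., and `WP2.link`, which is stated for conditions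
`Dd` which fail at `y` for the index `i` (apply it to the restricted conditions). `b1`: each `qf (lami_1 i) ≥ τ₁ (κ log H0) A_1`
(`WP2.lo`). `s12, s1, s2`: by `R_bt` every `qf (ten f g)` differs from `qf f * qf g` by at most
`B^2 * 9 K1 K2 (2/z) C (log H0)^(3K1 + 3K2) ≤ 1/((K1 + 1) (K2 + 1) (log N)^A)` for large `N` (`z ≥ N^(1/B0)`, `CM.W.R_pr`), and
`qf lam_s ≤ 2 A_s`, `β_s ≥ 0`, `qf ≥ 0` as in `TC sys`. -/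
def S_sys2 : Prop := TC.W.R_wpg → TC.W.R_tz → TC.W.R_tsup → TC.W.R_bt → CM.W.R_pr → R_sys2

/-! ### The numerical inequality -/

/-- The numerical inequality behind the final count: `l = log N`, `h = log H0`, `x = N^(1/d)`, `k = κ`, `v = V`;
`q12, q1, q2` the sums of the quadratic forms, `T, T1, T2` the three sums. -/
def R_nu2 : Prop := ∀ (D d C : ℕ) (K1 K2 c1 t0 E : ℝ), 1 ≤ d → 1 ≤ C → 1 ≤ K1 → 1 ≤ K2 → 0 < c1 →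
  0 < t0 → 0 ≤ E → ∃ l0 : ℝ, ∀ (l h m x v k τ₁ τ₂ a₁ a₂ β₁ β₂ q12 q1 q2 T T1 T2 : ℝ), l0 ≤ l →
  l ≤ 2 * d * h → h ≤ l → 0 ≤ m → m ≤ x → x ≤ C * m → c1 / l ^ (8 * D) ≤ v → v ≤ 1 → 0 < k →
  1 ≤ 1000 * (k * l) → t0 ≤ τ₁ → t0 ≤ τ₂ → τ₁ ≤ 1 → τ₂ ≤ 1 → 1 ≤ a₁ → 1 ≤ a₂ →
  K1 * (τ₁ * (k * h) * a₁) ≤ β₁ → K2 * (τ₂ * (k * h) * a₂) ≤ β₂ →
  β₁ * β₂ - E / l ^ (8 * D + 8) ≤ q12 → q1 ≤ β₁ * (2 * a₂) + E / l ^ (8 * D + 8) →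
  q2 ≤ 2 * a₁ * β₂ + E / l ^ (8 * D + 8) →
  8 / 10 * (m * (v / k ^ 2)) * q12 - E * (x / l ^ (8 * D + 8)) ≤ T →
  T1 ≤ 11 / 10 * (m * (v / k)) * q1 + E * (x / l ^ (8 * D + 8)) →
  T2 ≤ 11 / 10 * (m * (v / k)) * q2 + E * (x / l ^ (8 * D + 8)) →
  1 / 2 * (m * v) * (K1 * K2 * (τ₁ * τ₂) * h ^ 2) ≤
    T - K1 * τ₁ * h / 100 * T2 - K2 * τ₂ * h / 100 * T1

/-- [HF nu2] Proof: compare `TC nu`, `NS nm`. `Ψ = m v/k^2 ≥ 0`, `h > 0`, `v > 0`, `ε = 1/l^(8D+8)`. Main terms: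
`(K1 τ₁ h/100) (11/10) Ψ k * 2 a₁ β₂ = (22/1000) Ψ β₂ (K1 τ₁ (k h) a₁) ≤ (22/1000) Ψ β₁ β₂` (`β₂ ≥ 0`), and in the same way
`(K2 τ₂ h/100) (11/10) Ψ k * β₁ 2 a₂ ≤ (22/1000) Ψ β₁ β₂`; so the main part is `≥ (0.8 - 0.044) Ψ β₁ β₂ ≥ 0.75 Ψ β₁ β₂`, and
`Ψ β₁ β₂ ≥ Ψ (k h)^2 K1 K2 τ₁ τ₂ = m v h^2 K1 K2 τ₁ τ₂ =: R`. Errors: `(8/10) Ψ E ε + E x ε + ((K1 τ₁ + K2 τ₂) h/100) ((11/10) Ψ k E ε + E x ε)`;
`1/k ≤ 1000 l`, `v ≤ 1`, so `Ψ ≤ 10^6 m l^2`, `Ψ k ≤ 1000 m l`, `x ≤ C m`, `h ≤ l`, `τ ≤ 1`: the errors are at most `C' m l^2 ε`,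
`C' = C'(K1, K2, E, C)` (`l ≥ 1`), while `R ≥ m c1 l^(-8D) (l/(2d))^2 K1 K2 t0^2`; so they are `≤ R/4` if
`l^8 ≥ 16 d^2 C'/(c1 t0^2)`. -/
def S_nu2 : Prop := R_nu2

/-! ### The final count for a good `n` -/

open Classical in
/-- The number of good points for a good `n`. -/
def R_cn4 : Prop := ∀ (ι κ : Type) [Fintype ι] [DecidableEq ι] [Nonempty ι] [Fintype κ]
  [DecidableEq κ] [Nonempty κ] (D d E B0 B : ℕ) (t0 : ℝ), 1 ≤ D → 2 ≤ d → 1 ≤ E → 1 ≤ B0 →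
  0 < t0 → ∃ c : ℝ, 0 < c ∧ ∀ (H : Fam2 ι κ D d E) (B1 : ℕ), 3 ≤ B1 → ∀ᶠ N : ℕ in atTop,
  ∀ n ∈ Ioc N (Bn E N), ∀ (n' : ℕ) (P : Finset ℕ), Par3 H.F B0 N n' P →
  (2 : ℝ) ^ (2 * D + n') ≤ Real.log N → ∀ (τ₁ τ₂ : ℝ) (g : (PJf P → Option (ι ⊕ κ)) → ℝ)
    (g1 : ι → (PJf P → Option (ι ⊕ κ)) → ℝ) (g2 : κ → (PJf P → Option (ι ⊕ κ)) → ℝ)
    (g12 : ι → κ → (PJf P → Option (ι ⊕ κ)) → ℝ) (a₁ a₂ β₁ β₂ : ℝ),
  Sys2 d N B (kapD (z0 D n') * Real.log (Hn d N)) (1 / (Real.log N) ^ (8 * D + 8)) τ₁ τ₂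
    g g1 g2 g12 a₁ a₂ β₁ β₂ → t0 ≤ τ₁ → τ₁ ≤ 1 → t0 ≤ τ₂ → τ₂ ≤ 1 →
  (∀ l j, ErS2 H N (wN B1 N) n (6 * Fintype.card (ι ⊕ κ)) l j ≤
    (N : ℝ) ^ (1 / (d : ℝ)) / (Real.log N) ^ (8 * D + 8)) →
  (∀ l, ErS H.F N (wN B1 N) n (6 * Fintype.card (ι ⊕ κ)) l ≤
    (N : ℝ) ^ (1 / (d : ℝ)) / (Real.log N) ^ (8 * D + 8)) →
  (∀ l, |qr (rn2 H P n) (g1 l) - qf (g1 l)| ≤ 1 / (Real.log N) ^ (8 * D + 8)) →
  (∀ j, |qr (rp2 H P n) (g2 j) - qf (g2 j)| ≤ 1 / (Real.log N) ^ (8 * D + 8)) →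
  (∀ l j, |qr (rp2 H P n) (g12 l j) - qf (g12 l j)| ≤ 1 / (Real.log N) ^ (8 * D + 8)) →
  (∀ l, |sl H.F n (wN B1 N) (z0 D n') l| ≤ 1 / 100) →
  c * ((N : ℝ) ^ (1 / (d : ℝ)) * H.F.V n n') ≤ (((Icc 1 (Hn d N)).filter (fun x : ℕ =>
    H.F.wh N x ≠ 0 ∧ H.F.Rg n (z0 D n') x ∧
    (Fintype.card ι * τ₁ / 400 ≤
      d * ((univ.filter (fun i : ι => (H.F.L n i x).natAbs.Prime)).card : ℝ) ∧
    1 ≤ (univ.filter (fun i : ι => (H.F.L n i x).natAbs.Prime)).card) ∧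
    (Fintype.card κ * τ₂ / 400 ≤
      ((univ.filter (fun j : κ => (H.M j x).natAbs.Prime)).card : ℝ) ∧
    1 ≤ (univ.filter (fun j : κ => (H.M j x).natAbs.Prime)).card))).card : ℝ)

/-- [HF cn4] (uses nu2, HC A la2, NC Q qp, NC M win, mas, dn, pw, HC M win2, T4, U1, U2, wm4, CM S pre) Proof: compare `NS cn`
(`NC/R/cn.lean`) and `TC cn2` (`TC/P/cn2.lean`). `Fp, Fm` from `CM.S.R_pre` with `K := 2D` (`Pre D n' Fp Fm`). All the `qr (rn2 H P n) _`,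
`qr (rp2 H P n) _` are `≥ 0` by `NC.Q.R_qp` and `R_la2`. Let `X` = the `x ∈ Icc 1 H0` with `Rg`, `θ_i(x) = thP (L_i x).toNat`,
`θ'_j(x) = thP (M_j x).toNat`, `a = ∑_i θ_i`, `b = ∑_j θ'_j`, `Z = ZI (DN2 H P n) g`. If `x ≥ 1`, `wh ≠ 0` and `θ_i(x) ≠ 0` then `L_i(x)` is a
prime `≥ N/C > H0^(1/10000)` (`NC.M.R_win`), so no `p ∈ P` divides it; in the same way for `θ'_j(x) ≠ 0` (`R_win2`:
`M_j(x) ≥ H0^(1/2)`); the conditions `DN2` exclude each other (`R_la2`). So the links of `Sys2` give, with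
`T = ∑_{x ∈ X} wh a b Z^2 = ∑_{i,j} ∑_X wh θ_i θ'_j ZI (g12 i j)^2`, by `R_T4`:
`T ≥ (8/10) (m V/κ^2) ∑ qr (rp2) (g12 i j) - K1 K2 (1 + 3B^2) x0 ε`, `ε = 1/(log N)^(8D+8)` (`R_T4` with `A = 8D + 8`); with
`T1 = ∑_X wh a Z^2`, `R_U1`: `T1 ≤ (11/10)(m V/κ) ∑_i qr (rn2) (g1 i) + K1 (1 + 3B^2) x0 ε`; with `T2 = ∑_X wh b Z^2`, `R_U2`:
`T2 ≤ (11/10)(m V/κ) ∑_j qr (rp2) (g2 j) + K2 x0 ε`. `q12 = ∑ qr (rp2)(g12 i j) ≥ ∑ qf - K1 K2 ε ≥ β₁ β₂ - (1 + K1 K2) ε`, and so on. `R_nu2`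
with `C = 10000 d E`, `E := 4 K1 K2 (1 + 3B^2)`, `c1` from `W_ge` for `V` as in `NC/R/cn.lean` (`V ≥ c1/(log N)^(8D)` by
`2^(2D+n') ≤ log N`; `V ≤ 1`; `1 ≤ 1000 κ log z ≤ 1000 κ log N`; `l ≤ 2 d h`; `NC.M.R_mas`): with `ρ₁ = K1 τ₁ h/100`, `ρ₂ = K2 τ₂ h/100`:
`T - ρ₁ T2 - ρ₂ T1 ≥ (1/2) m V K1 K2 τ₁ τ₂ h^2`. Pointwise (`wh, a, b ≥ 0`): `wh (a b - ρ₁ b - ρ₂ a) Z^2 ≤ [a > ρ₁, b > ρ₂] wh a b Z^2`.
By `R_wm4`, where `wh ≠ 0`: `a ≤ 2 K1 log N ≤ 4 d K1 h`, `b ≤ 2 K2 h`, `Z^2 ≤ Zm` (a constant), `wh ≤ 1`; so the number of the `x ∈ X` with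
`wh ≠ 0`, `a > ρ₁`, `b > ρ₂` is at least `m V τ₁ τ₂/(16 d Zm) ≥ c x0 V`, `c = t0^2/(16 d Zm 10000 d E)`. For such an `x`: the number
of the `i` with `θ_i ≠ 0` is at least `ρ₁/(2 log N) ≥ K1 τ₁/(400 d)`, and `≥ 1` as `a > 0`; the number of the `j` with `θ'_j ≠ 0` is at
least `ρ₂/(2 h) = K2 τ₂/200`, and `≥ 1`. `θ ≠ 0` means that `(L x).toNat` is a prime, which is `(L x).natAbs` as `L x > 0`. -/
def S_cn4 : Prop := R_nu2 → A.R_la2 → NC.Q.R_qp → NC.M.R_win → NC.M.R_mas → NC.M.R_dn →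
  NC.M.R_pw → M.R_win2 → M.R_T4 → M.R_U1 → M.R_U2 → M.R_wm4 → CM.S.R_pre → R_cn4

/-! ### The family data -/

/-- Existence of the family data. -/
def R_fm2 : Prop := ∀ (m D : ℕ), 1 ≤ m → 1 ≤ D → ∀ f : Fin m → MvPolynomial (Fin 2) ℤ,
  Admissible f → (∀ k, (f k).totalDegree ≤ D) → ∀ (d : ℕ) (I J : Finset (Fin m)), 2 ≤ d →
  ∀ (a : Fin m → ℤ) (g : Fin m → ℤ[X]) (u v : Fin m → ℤ),
  (∀ k ∈ I, a k ≠ 0 ∧ (g k).natDegree = d ∧ f k = MvPolynomial.C (a k) *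
    (MvPolynomial.X 0 + MvPolynomial.X 1) + aeval (MvPolynomial.X 0) (g k)) →
  (∀ k ∈ I, ∀ l ∈ I, k ≠ l → f k ≠ f l ∧ f k ≠ - f l) →
  (∀ k ∈ J, u k ≠ 0 ∧ f k = MvPolynomial.C (u k) * MvPolynomial.X 0 + MvPolynomial.C (v k)) →
  (∀ k ∈ J, ∀ l ∈ J, k ≠ l → f k ≠ f l ∧ f k ≠ - f l) →
  (I.Nonempty → d ≤ D) ∧ ∃ H : Fam2 {k // k ∈ I} {k // k ∈ J} (m * D) d (16 * (m + 1)),
    (∀ n, H.F.N0 ≤ n → H.F.G n = ∏ k, lineRestrict (f k) n) ∧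
    (∀ n, H.F.N0 ≤ n → ∀ k, Irreducible (lineRestrict (f k) n)) ∧
    (∀ (n : ℕ) (l : {k // k ∈ I}) (x : ℤ),
      (H.F.L n l x).natAbs = (val (f l) x ((n : ℤ) - x)).natAbs) ∧
    ∀ (n : ℕ) (j : {k // k ∈ J}) (x : ℤ),
      (H.M j x).natAbs = (val (f j) x ((n : ℤ) - x)).natAbs

/-- [HF fm2] (uses NC F fm) Proof: `F` from `NC.F.R_fm`. For `k ∈ J` let `σ_k = ±1` be the sign of `u k`, `H.u k = |u k|`,
`H.v k = σ_k v k`. `val (f k) x (n - x) = u k x + v k` (evaluate), so `lineRestrict (f k) n = C (u k) * X + C (v k)` for every `n`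
(`eval_lineRestrict`, equality of polynomials with the same values at all integers), `H.M k x = σ_k val (f k) x (n - x)`, and
`F.G n = ∏ k, lineRestrict (f k) n = (C (H.u k) * X + C (H.v k)) * (C σ_k * ∏ k' ∈ univ.erase k, lineRestrict (f k') n)`. `huv`: by
the irreducibility of `lineRestrict (f k) n`, `n ≥ F.N0`, which has degree `1`: a common divisor of `u k`, `v k` divides it, so it
is a unit. `hdet`: if `|u_k| σ_l v_l = |u_l| σ_k v_k` for `k ≠ l` in `J` then `(|u_l|)(|u_k| X + σ_k v_k) = (|u_k|)(|u_l| X + σ_l v_l)`;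
as `(u, v)` are coprime, `|u_k| = |u_l|` and `σ_k v_k = σ_l v_l`, so `f k = ± f l`: contradiction. -/
def S_fm2 : Prop := NC.F.R_fm → R_fm2

/-! ### The final theorem -/

open Classical in
/-- The final theorem. -/
def R_fin2 : Prop := ∃ c0 : ℝ, 0 < c0 ∧ ∀ m D : ℕ, 1 ≤ m → 1 ≤ D → ∃ (B : ℕ) (c : ℝ), 0 < c ∧
  ∀ f : Fin m → MvPolynomial (Fin 2) ℤ, Admissible f → (∀ k, (f k).totalDegree ≤ D) →
  ∀ (d : ℕ) (I J : Finset (Fin m)), 2 ≤ d → I.Nonempty →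
  ∀ (a : Fin m → ℤ) (g : Fin m → ℤ[X]) (u v : Fin m → ℤ),
  (∀ k ∈ I, a k ≠ 0 ∧ (g k).natDegree = d ∧ f k = MvPolynomial.C (a k) *
    (MvPolynomial.X 0 + MvPolynomial.X 1) + aeval (MvPolynomial.X 0) (g k)) →
  (∀ k ∈ I, ∀ l ∈ I, k ≠ l → f k ≠ f l ∧ f k ≠ - f l) →
  (∀ k ∈ J, u k ≠ 0 ∧ f k = MvPolynomial.C (u k) * MvPolynomial.X 0 + MvPolynomial.C (v k)) →
  (∀ k ∈ J, ∀ l ∈ J, k ≠ l → f k ≠ f l ∧ f k ≠ - f l) →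
  ∀ A : ℕ, ∀ᶠ N : ℕ in atTop, (((Icc 1 N).filter (fun n : ℕ =>
    ¬ (c * ((n : ℝ) ^ (1 / (d : ℝ)) * singV f n) ≤
    (Set.ncard {x : ℕ | 0 < x ∧ x < n ∧ x ^ d ≤ n ∧
      (c0 * Real.log I.card ≤
          d * ((I.filter (fun k => (val (f k) x ((n : ℤ) - x)).natAbs.Prime)).card : ℝ) ∧
        1 ≤ (I.filter (fun k => (val (f k) x ((n : ℤ) - x)).natAbs.Prime)).card) ∧
      (J.Nonempty → c0 * Real.log J.card ≤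
          ((J.filter (fun k => (val (f k) x ((n : ℤ) - x)).natAbs.Prime)).card : ℝ) ∧
        1 ≤ (J.filter (fun k => (val (f k) x ((n : ℤ) - x)).natAbs.Prime)).card) ∧
      ∀ k, 1 < |val (f k) x ((n : ℤ) - x)| ∧
      (∀ p : ℕ, p.Prime → (p : ℤ) ∣ val (f k) x ((n : ℤ) - x) → n < p ^ B) ∧
      cardFactors (val (f k) x ((n : ℤ) - x)).natAbs ≤ B * D} : ℝ)))).card : ℝ) ≤
    N / (Real.log N) ^ A

/-- [HF fin2] (uses EX2, NC EX, NC F fin, sys2, cn4, fm2, A gq2, gs2, NC M win, TC F bk) Proof: compare `NS fin` (`NC/R/fin.lean`).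
CASE `J = ∅`: this is `NC.F.R_fin`. At the end `c0`, `B`, `c` are the minimum, maximum, minimum of the constants of the two cases (the
set of the `x` grows with `B` and when `c0` decreases; `c (n^(1/d) singV)` decreases with `c` if `singV ≥ 0`, and if it is
negative the inequality holds trivially). CASE `J ≠ ∅`: `c'` from `R_sys2`, `c0 = c'/400`. For fixed `m, D` and each of the finitely
many `I, J ⊆ Fin m` nonempty and `2 ≤ d ≤ D`: `ι = {k // k ∈ I}`, `κ = {k // k ∈ J}`, `M` from `R_sys2`, `E = 16(m+1)`, `D1 = m D`,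
`B0 = 2 d * (128000 * (2 D1) * (30 M))`, `B'` from `R_sys2`, `t0 = c'/(m B0)`, `c_(I,J,d)` from `R_cn4` (with `B := B'`);
`B = 1 + max B0`, `c = (1/4) min c_(I,J,d)`, `c ≤ 1`. Let `f, d, I, J, a, g, u, v` be given, `d ≤ D` and `H` from `R_fm2`. Let `S` be the
set of the `n` for which the asserted inequality fails. By `TC.F.R_bk` with `k = 1000 E` it suffices to show for every `A` and all
large `N` that `#(S ∩ (N, Bn E N]) ≤ N/(log N)^A`. Let `A' = max (A + 1) (8 D1 + 8)`; `B1` = the maximum of `3`, and of the `B0` of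
`HC.R_EX2` for all `l, j` (`A'`, `b = 6 |ι ⊕ κ|`), of `NC.R_EX` for all `l` (`F = H.F`, the same `A'`, `b`) and of `R_gs2` for all `l`
(`A'`). For large `N`: `choose_levS (2 D1) (30 M) .. c2` (`MT/Level.lean`) at `x = H0 = Hn d N` gives `n'` with
`lev^(30M) ≤ H0^(1/1000)`, so `lev^(3M) ≤ H0^(1/10000)`; `H0 ≤ z^(128000 (2 D1)(30 M))`, so `N ≤ (H0+1)^d ≤ H0^(2d) ≤ z^B0`;
`2^(2 D1+n') ≤ log H0 ≤ log N`, `c2 ≤ z`. `R_sys2` (`A := 8 D1 + 8`) gives `P, τ₁, τ₂, g, ..` (the same for all `n` of the block). The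
exceptional `n` of the block: those with `ErS2 > x0/(log N)^A'` for some `l, j`, with `ErS > x0/(log N)^A'` for some `l`, with
`1/(log N)^A' < |qr - qf|` for some `g1 l` (`rn2`), `g2 j`, `g12 l j` (`rp2`) (`R_gq2`, `B = B'`), with `|sl| > 1/100` for some `l`
(`R_gs2`; `z ≤ lev ≤ H0^(1/10000) ≤ N^(1/10)`), altogether at most `10 m^2 N/(log N)^(A+1) ≤ N/(log N)^A`. For the other `n`, `R_cn4`
gives at least `c_(I,J,d) x0 V` points `x`, with `x ≤ H0`, `wh ≠ 0`, so `0 < x < n`, `x^d ≤ n` (`NC.M.R_win`), `Rg`. The end is as in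
`NC/R/fin.lean` (`good_of_rough`, `card_unit_le`, `singV_le`, `W_ge`): all but `O(1)` of them satisfy `1 < |val (f k)|` for all `k`; prime
factors of the values are `> z`, `n ≤ 2N ≤ 2 z^B0 < z^B`; `Ω ≤ B D`; `singV f n ≤ V`. `c0 log |I| ≤ K1 τ₁/400`, `c0 log |J| ≤ K2 τ₂/400`.
The primes are counted by `R_fm2` (last two claims); the cardinalities over `{k // k ∈ I}` and over `I.filter` agree
(`card_filter_sub`). So `n ∉ S`. -/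
def S_fin2 : Prop := HC.R_EX2 → NC.R_EX → NC.F.R_fin → R_sys2 → R_cn4 → R_fm2 → A.R_gq2 →
  A.R_gs2 → NC.M.R_win → TC.F.R_bk → R_fin2

end Pool.Agent.HC.F
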