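import Pool.Agent.Lib.MP_0da313_nt.HC.A

set_option autoImplicit false

/-!
Project HC, section M: the window, the distribution of the primes of a linear member in the window, the
densities, the general expansion, the model sum, the expansion of the errors, the lower bound for the sums
with two prime members and the upper bounds for the sums with one prime member.

Notation for the docstrings: `z = z0 D n'`, `κ z = kapD z = ∏_{p ≤ z} (1 - 1/p)`, `V = H.F.V n n'`,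
`w = wN B1 N = ⌊(log N)^B1⌋₊`, `H0 = Hn d N`, `L_l(x) = H.F.L n l x`, `M_j(x) = H.M j x = u_j x + v_j`, `X = H.F.X N = (s N)^(1/d)`,
`lam = 1000 d E`, `wh x = H.F.wh N x = tri (lam * log (x/X))`, `m = mN H.F N`, `x0 = N^(1/d)`, `σ = ι ⊕ κ`. Compare `NC/M.lean`
(proofs: `NC/R/*.lean`) and `TC/M.lean` (proofs: `TC/P/*.lean`).
-/

namespace Pool.Agent.HC.M

open Finset Filter Polynomial
open Pool.Agent.MP89da58 (bil pw nn supp part kapD tri)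
open Pool.Agent.MT (PJf dvI ZI)
open Pool.Agent.BVall (om rhoW PK lev RepB Dens)
open Pool.Agent.Lib.MP_0da313_nt (W)
open Pool.Agent.CH (thP)
open Pool.Agent.CM (wd z0 er sT)
open Pool.Agent.CM.F (Pre)
open Pool.Agent.TC (Lw wN)
open Pool.Agent.TC.W (qf)
open Pool.Agent.NC (Hn Bn ErS)
open Pool.Agent.NC.Q (prr nu qr od)
open Pool.Agent.NC.A (Par3 sl)
open Pool.Agent.NC.M (mN Q3 r3 d3)
open Pool.Agent.HC (Fam2 ErS2 Cm2 DN2 rn2 rp2 Wt4 Q4 r4 d4 Sj ph)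

/-! ### The window -/

/-- Location of the values of the linear members. -/
def R_win2 : Prop := ∀ (ι κ : Type) [Fintype ι] [DecidableEq ι] [Fintype κ] [DecidableEq κ]
  (D d E : ℕ) (H : Fam2 ι κ D d E), ∀ᶠ N : ℕ in atTop, ∀ x : ℕ, 1 ≤ x → H.F.wh N x ≠ 0 →
  ∀ j, (Hn d N : ℝ) ^ (1 / 2 : ℝ) ≤ H.M j x ∧ (H.M j x : ℝ) ≤ (Hn d N : ℝ) ^ (3 / 2 : ℝ) ∧
    (H.M j x : ℝ) ≤ N

/-- [HS win2] Proof: if `wh ≠ 0` then `|log (x/X)| < 1/lam ≤ 1/2000`, so `X/2 ≤ x ≤ 2X` (`x ≥ 1`), `X = (s N)^(1/d)` with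
`1/4 ≤ s ≤ 1/2`, and `H0 = ⌊N^(1/d)⌋₊ → ∞`, so `H0/10 ≤ x ≤ 4 H0` for large `N`; `u_j x + v_j` is between `x/2` and `(u_j + 1) x`
for large `N`. `H0^(3/2) ≤ N^(3/4) ≤ N` (`d ≥ 2`). -/
def S_win2 : Prop := R_win2

/-! ### The primes of a linear member in the window -/

/-- The theorem of Bombieri and Vinogradov for the primes `M_j(x)`, `x` in the window. -/
def R_bvx : Prop := ∀ (ι κ : Type) [Fintype ι] [DecidableEq ι] [Fintype κ] [DecidableEq κ]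
  (D d E : ℕ) (H : Fam2 ι κ D d E) (j : κ) (b A : ℕ), ∀ᶠ N : ℕ in atTop, ∃ Eq : ℕ → ℝ,
  (∀ q, 0 ≤ Eq q) ∧
  (∀ q c : ℕ, Squarefree q → (q : ℝ) ≤ (N : ℝ) ^ (1 / (1000 * d) : ℝ) →
    IsCoprime (q : ℤ) (H.M j c) →
    |∑ x ∈ (Icc 1 (Hn d N)).filter (fun x => x ≡ c [MOD q]), H.F.wh N x * thP (H.M j x).toNat -
      Sj H N j * ∏ p ∈ q.primeFactors, (ph (H.u j) p)⁻¹| ≤ Eq q) ∧
  ∑ q ∈ (Icc 1 ⌊(N : ℝ) ^ (1 / (1000 * d) : ℝ)⌋₊).filter Squarefree,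
    (b : ℝ) ^ q.primeFactors.card * Eq q ≤ (N : ℝ) ^ (1 / (d : ℝ)) / (Real.log N) ^ A

/-- [HS bvx] (uses CM B) Proof: `u = H.u j`, `v = H.v j`, `Y = u X` (real, `→ ∞`), `N' = ⌊3 Y⌋₊`, `a k = thP k * wd lam Y k`,
`a' k = thP k * tri (lam * log ((k - v)/Y))` if `v < k`, else `0`. For large `N` (`X` large): `a k = a' k = 0` unless `k > Y/4`
(`lam ≥ 2000`), and for `k > Y/4`: `|log ((k-v)/Y) - log (k/Y)| ≤ 8|v|/Y`, `tri` is 1-Lipschitz: `|a' k - a k| ≤ log (3Y) lam 8|v|/Y`; so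
`∑_{k ≤ N'} |a' - a| ≤ C log N`. The map `x ↦ k = u x + v` maps the `x ≥ 1`, `x ≡ c (q)` onto the `k > v`, `k ≡ u c + v (u q)`,
`wh x = tri (lam log ((k - v)/Y))`; if it is not `0` then `x ≤ H0` (`x < X e^(1/lam) ≤ x0`) and `1 ≤ k ≤ N'`. So
`∑_{x ≡ c} wh thP = sA a' N' (u q) (u c + v)` and `Sj = sA a' N' u v` (classes: `Int.toNat` of the residues), the class is coprime to
`u q` (`H.huv`, `H.M j c` coprime to `q`). Let `e(Q) = max_b er a' N' Q b` over the classes `b` coprime to `Q` (finitely many). As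
`φ(u q) = φ(u) ∏_{p ∣ q} ph u p` for squarefree `q` (compare `totient_mul_prod` in `BV/Classes.lean`):
`|∑_{x ≡ c} .. - Sj ∏ ph⁻¹| ≤ e(u q) + e(u) ∏ ph⁻¹ =: Eq q`. `e(Q) ≤ max_b er a N' Q b + 2 C log N`. `CM.B.R_B` (first part: `BVc CP lam`)
with `W = u`, `ε = 1/4`, `X := Y`, exponent `A + 2b + 3`, for the classes with the largest `er` (`N^(1/(1000 d)) ≤ Y^(1/4)`) bounds
`∑_q b^ω(q) max_b er a N' (u q) b`, and with `q = 1` it bounds `er a N' u`; `∑_q b^ω(q) ∏ ph⁻¹ ≤ ∑_q (2b)^ω(q)/q ≤ (1 + log N)^(2b)`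
(`ph u p ≥ p/2`, `sum_omega_le`), `∑_q b^ω(q) 2 C log N ≤ N^(1/(1000 d)) (1 + log N)^b 2 C log N`. All together
`≤ x0/(log N)^A` (`Y ≤ u x0`, `log Y ≥ log N/(2d)`). -/
def S_bvx : Prop := CM.B.R_B → R_bvx

/-- The masses. -/
def R_ms2 : Prop := ∀ (ι κ : Type) [Fintype ι] [DecidableEq ι] [Fintype κ] [DecidableEq κ]
  (D d E : ℕ) (H : Fam2 ι κ D d E), ∀ᶠ N : ℕ in atTop, ∀ j,
  99 / 100 * ((H.u j : ℝ) / (Nat.totient (H.u j) : ℝ) * mN H.F N) ≤ Sj H N j ∧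
  Sj H N j ≤ 101 / 100 * ((H.u j : ℝ) / (Nat.totient (H.u j) : ℝ) * mN H.F N)

/-- [HS ms2] (uses CM B, CM M mu, CM M m1) Proof: notation of `bvx`. `Sj = sA a' N' u v = sT a N'/φ(u) + O(er a N' u v + log N)`, and
`er a N' u v ≤ Y/(log Y)` by `R_B` (`BVc CP lam` with `W = u`, `b = 1`, `A = 1`, `ε = 1/4`, the term `q = 1`). `R_m1` with
`δ = 1/(10000 lam)` at `Y`: `|sT a N' - mu lam Y| ≤ δ Y`, `mu lam ≥ 1/lam` (`R_mu`), so `sT a N' = mu lam u X (1 + θ/5000)`. On the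
other side `m = ∑_{x ≤ H0} tri (lam log (x/X))`, and `∫_0^∞ tri (lam log (t/X)) dt = mu lam X` (substitute `t = X e^s`:
`X ∫ tri(lam s) e^s ds = X 2 lam (cosh (1/lam) - 1)`; this computation is in the proof of `CM M m1`, `CM/P/m1.lean`); the function
is increasing, then decreasing, with values in `[0, 1]`, so `|m - mu lam X| ≤ 2`, `m = mu lam X (1 + θ/5000)` for large `N`. -/
def S_ms2 : Prop := CM.B.R_B → CM.M.R_mu → CM.M.R_m1 → R_ms2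

/-! ### Densities -/

open Classical in
/-- The densities for the pair `l`, `j`. -/
def R_dn4 : Prop := ∀ (ι κ : Type) [Fintype ι] [DecidableEq ι] [Fintype κ] [DecidableEq κ]
  (D d E : ℕ) (H : Fam2 ι κ D d E), 1 ≤ D → ∀ᶠ N : ℕ in atTop, ∀ n ∈ Ioc N (Bn E N),
  ∀ n' w : ℕ, (Real.log N) ^ 2 ≤ w → w ≤ z0 D n' →
  (∀ l j (p : ℕ) (x y : ℤ), (p : ℤ) ∣ x - y →
    (Q4 H n w (z0 D n') l j p x ↔ Q4 H n w (z0 D n') l j p y)) ∧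
  (∀ l j (p : ℕ), p.Prime → om (Q4 H n w (z0 D n') l j) p ≤ D) ∧
  (∀ l j, Dens (2 * D) (d4 H n w (z0 D n') l j)) ∧
  (∀ l j, - (1 / 100) ≤ sl H.F n w (z0 D n') l →
    9 / 10 * (H.F.V n n' / (kapD (z0 D n')) ^ 2 * kapD w) ≤
      (H.u j : ℝ) / (Nat.totient (H.u j) : ℝ) * W (d4 H n w (z0 D n') l j) (PK (2 * D) n')) ∧
  ∀ l j, (H.u j : ℝ) / (Nat.totient (H.u j) : ℝ) *
    W (d4 H n (z0 D n') (z0 D n') l j) (PK (2 * D) n') = H.F.V n n' / kapD (z0 D n')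

/-- [HS dn4] (uses NC A la) Proof: compare `NS dn` (`NC/R/dn.lean`) and `TC dn2` (`TC/P/dn2.lean`). `u = H.u j`, `ω = om (p ∣ G)`,
`ρ = ol H.F n l p` (the number of roots of `L_l` modulo `p`), `F.N0 ≤ n`; `ω ≤ D`, `ω ≤ p - 1` (`hdeg`, `hloc`, `card_roots_mod_le`); the
roots of `L_l` and `M_j` modulo `p` are roots of `G` (`F.hG`, `H.hH`). `M_j` has one root modulo `p` if `p ∤ u` and none if `p ∣ u`
(`H.huv`). For large `N` all prime factors of all `u_j` are `≤ w`. So for a prime `p ≤ w`: `om Q4 p = ω - 1` if `p ∤ u`, `ω` if `p ∣ u`;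
for `w < p ≤ z`: `om Q4 p = ω - 1 - ρ + ε`, `ε = 1` if the root of `M_j` is a root of `L_l` modulo `p`, else `0` (`ε ≤ ρ`); for `p > z`: `0`.
The first three claims: `om Q4 ≤ om (p ∣ G)`, periodicity, `rhoW ≤ 1 - 1/p` and `≤ 2D/p` (`(ω-1)/(p-1)` resp. `ω/p`).
Fourth claim: `1 - d4 p = (1 - ω/p)/(1 - 1/p)` for `p ≤ w`, `p ∤ u`; `= 1 - ω/p` for `p ∣ u`; for `w < p ≤ z`
`1 - d4 p = (1 - (ω - ρ + ε)/p)/(1 - 1/p) ≥ (1 - ω/p)(1 + (ρ - ε)/p)/(1 - 1/p)`. As `∏_{p ∣ u} (1 - 1/p) = φ(u)/u`: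
`(u/φ(u)) W (d4) PK ≥ κ(z)⁻¹ V ∏_{w < p ≤ z} (1 + (ρ - ε)/p)`. The `p > w` with `ε = 1` divide the integer
`R(n) = u^d (a_l n + g_l(-v/u))`, which is `a_l u^d n + const`, not `0` for large `n` and `|R(n)| ≤ C n`: at most `2 log N + C'` such
`p`, each `1/p ≤ 1/(log N)^2`, so `∑ ε/p ≤ 1/100` for large `N`; and as in `NS dn`
`log ∏ (1 + (ρ-ε)/p) ≥ sl + ∑_{w<p≤z} 1/p - ∑ ε/p - (K1^2+1)/w ≥ log (κ(w)/κ(z)) - 3/100`, `e^(-3/100) ≥ 9/10`.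
Fifth claim: for `w = z` the condition at `p ≤ z` is `p ∣ G`, `p ∤ M_j` and the computation above (first two cases) gives
equality (the prime factors of `u` are `≤ (log N)^2 ≤ w ≤ z`; here the hypotheses are those for `w`, so `z ≥ w` is large). -/
def S_dn4 : Prop := NC.A.R_la → R_dn4

/-- The upper bound for the density of the single member. -/
def R_dnU : Prop := ∀ (ι : Type) [Fintype ι] [DecidableEq ι] (D d E : ℕ) (F : NC.Fam ι D d E), 1 ≤ D →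
  ∀ᶠ N : ℕ in atTop, ∀ n ∈ Ioc N (Bn E N), ∀ n' w : ℕ, (Real.log N) ^ 2 ≤ w → w ≤ z0 D n' →
  ∀ l, sl F n w (z0 D n') l ≤ 1 / 100 →
    W (d3 F n w (z0 D n') l) (PK (2 * D) n') ≤ 105 / 100 * (F.V n n' / kapD (z0 D n') * kapD w)

/-- [HS dnU] (uses NC A la) Proof: as the fourth claim of `NS dn` (`NC/R/dn.lean`), in the other direction. For a prime
`w < p ≤ z`: `1 - (ω - ρ)/p = (1 - ω/p) (1 + (ρ/p)/(1 - ω/p))`, and `ω ≤ D`, `ρ ≤ K1` (`R_la`), so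
`(ρ/p)/(1 - ω/p) ≤ ρ/p + 2 K1 D/p^2` for `p ≥ 2D`. `log (1 + t) ≤ t`, so `∏_{w<p≤z} (1 + ..) ≤ exp(∑ ρ/p + 2 K1 D/w)`
`= exp(sl + ∑_{w<p≤z} 1/p + 2 K1 D/w) ≤ exp(1/100 + 2 K1 D/w) κ(w)/κ(z)` (`1/p ≤ - log (1 - 1/p)`), `≤ 1.05 κ(w)/κ(z)` for large `N`. -/
def S_dnU : Prop := NC.A.R_la → R_dnU

/-! ### The general expansion -/

open Classical in
/-- The general expansion for the integers `x` for which `u x + v` is a prime. -/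
def R_gx : Prop := ∀ (ι : Type) [Fintype ι] [DecidableEq ι] [Nonempty ι] (P P1 : Finset ℕ)
  (Dd : PJf P → ι → ℤ → Prop) (Q : ℕ → ℤ → Prop) (Al : ι → Prop) (u : ℕ) (v : ℤ) (K0 : ℕ),
  1 ≤ u → (∀ p ∈ P, p.Prime ∧ ¬ p ∣ u) → (∀ p ∈ P1, p.Prime) → Disjoint P P1 → 1 ≤ K0 →
  (∀ (j : PJf P) (l : ι) (x y : ℤ), ((j : ℕ) : ℤ) ∣ x - y → (Dd j l x ↔ Dd j l y)) →
  (∀ j l l' y, l ≠ l' → ¬ (Dd j l y ∧ Dd j l' y)) → (∀ j l, od Dd j l ≤ K0) →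
  (∀ (j : PJf P) (l : ι) (y : ℤ), Al l → Dd j l y → ¬ ((j : ℕ) : ℤ) ∣ (u : ℤ) * y + v) →
  (∀ (p : ℕ) (x y : ℤ), (p : ℤ) ∣ x - y → (Q p x ↔ Q p y)) →
  (∀ (p : ℕ) (x : ℤ), Q p x → ¬ (p : ℤ) ∣ (u : ℤ) * x + v) → (∀ p ∈ P1, om Q p ≤ K0) →
  ∀ (Y0 : ℕ) (Ff : (ℕ → ℝ) → ℝ), RepB P1 (fun T => ∏ p ∈ T, p ≤ Y0) Ff →
  ∀ (g : (PJf P → Option ι) → ℝ) (B : ℝ) (Y : ℕ), (∀ α, |g α| ≤ B) →
  (∀ α, g α ≠ 0 → nn (fun j : PJf P => (j : ℕ)) (supp α) ≤ Y) →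
  (∀ α, g α ≠ 0 → ∀ j l, α j = some l → Al l) →
  ∀ (h : ℕ → ℝ) (M : ℕ) (Eq : ℕ → ℝ), (∀ q, 0 ≤ Eq q) →
  (∀ q c : ℕ, Squarefree q → q ≤ Y * Y * Y0 → IsCoprime (q : ℤ) ((u : ℤ) * c + v) →
    |∑ x ∈ (Icc 1 M).filter (fun x => x ≡ c [MOD q]), h x -
      (∑ x ∈ Icc 1 M, h x) * ∏ p ∈ q.primeFactors, (ph u p)⁻¹| ≤ Eq q) →
  |∑ x ∈ Icc 1 M, h x * Ff (fun p => if Q p (x : ℤ) then (1 : ℝ) else 0) * ZI Dd g (x : ℤ) ^ 2 -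
    (∑ x ∈ Icc 1 M, h x) * Ff (fun p => rhoW u Q p) *
      qr (fun (j : PJf P) l => (od Dd j l : ℝ) / (((j : ℕ) : ℝ) - 1)) g| ≤
  3 * B ^ 2 * ∑ q ∈ (Icc 1 (Y * Y * Y0)).filter Squarefree,
    ((6 * Fintype.card ι * K0 : ℕ) : ℝ) ^ q.primeFactors.card * Eq q

/-- [HS gx] (uses NC Q nu, cr, CM G es1) Proof: that of `NS gn` (`NC/R/gn.lean`), with coprime classes. By `R_nu` (first claim,
`ω x = h x * Ff (..)`) the sum is `∑_γ nu g γ ∑_x [dvI Dd x γ] ω x`, and `qr = ∑_γ nu g γ prr r γ`. If `nu g γ ≠ 0` then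
(`R_nu`, third claim) `supp γ = supp α ∪ supp β` with `g α, g β ≠ 0`, so `nn (supp γ) ≤ Y Y` and `γ j = some l` implies `Al l`. Write
`Ff ρ = ∑_{T ⊆ P1} c_T ∏_{p ∈ T} ρ p`, `|c_T| ≤ 1`, `∏ T ≤ Y0` if `c_T ≠ 0`. For fixed `γ`, `T` let `q = ∏ T * nn (supp γ)`, squarefree
(`P`, `P1` disjoint), `q ≤ Y Y Y0`. The condition ``Q p x` for all `p ∈ T`, and `dvI Dd x γ`` is periodic modulo `q`; the number of the
classes `c ∈ range q` satisfying it is `∏_{p ∈ T} om Q p * ∏_{j ∈ supp γ} od Dd j (γ j) ≤ K0^(|T| + |supp γ|)` (`R_cr`), and each of them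
satisfies `IsCoprime q (u c + v)` (no prime of `T` or of `supp γ` divides `u c + v`). So the sum of `h` over the `x` satisfying it is
`(∑ h) ∏_T (om Q p/ph u p) ∏_{supp γ} (od/(j - 1))` (`ph u j = j - 1` as `j ∤ u`; `rhoW u Q p = om Q p/ph u p` by definition) with an
error at most `K0^(|T|+|supp γ|) Eq q`. Sum over `T`, `γ`: last claim of `R_nu`, `|nu g γ| ≤ B^2 3^|supp γ|` and `CM.G.R_es1`
(`c = 3 |ι|`, `E = Eq`). -/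
def S_gx : Prop := NC.Q.R_nu → NC.Q.R_cr → CM.G.R_es1 → R_gx

/-! ### Pointwise inequalities -/

open Classical in
/-- Pointwise inequalities for the lower bound. -/
def R_pw4 : Prop := ∀ (ι κ : Type) [Fintype ι] [DecidableEq ι] [Fintype κ] [DecidableEq κ]
  (D d E : ℕ) (H : Fam2 ι κ D d E) (B0 B1 : ℕ), 1 ≤ D → 1 ≤ B0 → 3 ≤ B1 → ∀ᶠ N : ℕ in atTop,
  ∀ n ∈ Ioc N (Bn E N), ∀ (n' : ℕ) (P : Finset ℕ), Par3 H.F B0 N n' P →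
  ((Real.log N) ^ 2 ≤ wN B1 N ∧ wN B1 N ≤ z0 D n') ∧
  ∀ Fp Fm, Pre D n' Fp Fm → ∀ (l : ι) (j : κ) (x : ℕ), 1 ≤ x → H.F.wh N x ≠ 0 →
  thP (H.M j x).toNat ≠ 0 →
  (kapD (wN B1 N))⁻¹ * Fm (r4 H n (wN B1 N) (z0 D n') l j x) ≤
    Lw (wN B1 N) (H.F.L n l x).toNat * Fm (r4 H n (wN B1 N) (z0 D n') l j x) ∧
  thP (H.F.L n l x).toNat * Fm (r4 H n (wN B1 N) (z0 D n') l j x) ≤
    if H.F.Rg n (z0 D n') x then thP (H.F.L n l x).toNat else 0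

/-- [HS pw4] (uses NC M win, win2) Proof: that of `NS pw` (`NC/R/pw.lean`). `w ≥ (log N)^3 - 1 ≥ (log N)^2`, `z ≥ N^(1/B0) ≥ (log N)^B1`.
By `NC.M.R_win`, `L_l(x) ≥ N/C > z`; by `R_win2`, `M_j(x) ≥ H0^(1/2) > z` (`z ≤ lev ≤ H0^(1/10000)`), so `M_j(x)` is a prime `> z` and no
prime `p ≤ z` divides it. `ρ = r4 H n w z l j x` has values `0` or `1`, `Fm ρ ≤ W ρ (PK (2D) n')` (`Pre.pt`). First claim: if no
prime `≤ w` divides `L_l(x)` the two sides are equal. Otherwise some prime `p ≤ w` divides it, hence `G(x)`, and not `M_j(x)`, so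
`ρ p = 1`, `Fm ρ ≤ 0`, the right side is `0` and the left side is `≤ 0`. Second claim: if `thP (L_l x) ≠ 0` then `L_l(x)` is a prime
`> z` and for primes `p ≤ z`: `ρ p = 1` iff `p ∣ G(x)`. If `Rg`: `Fm ρ ≤ W ρ ≤ 1`. If not: `Fm ρ ≤ 0`. -/
def S_pw4 : Prop := NC.M.R_win → R_win2 → R_pw4

/-! ### The model sum -/

/-- The lower bound for the model sum. -/
def R_md4 : Prop := ∀ (ι κ : Type) [Fintype ι] [DecidableEq ι] [Fintype κ] [DecidableEq κ]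
  (D d E : ℕ) (H : Fam2 ι κ D d E) (B0 B B1 A : ℕ), 1 ≤ D → 1 ≤ B0 → 3 ≤ B1 →
  ∀ᶠ N : ℕ in atTop, ∀ n ∈ Ioc N (Bn E N), ∀ (n' : ℕ) (P : Finset ℕ), Par3 H.F B0 N n' P →
  ∀ Fp Fm, Pre D n' Fp Fm → ∀ (l : ι) (j : κ) (g : (PJf P → Option (ι ⊕ κ)) → ℝ), Wt4 d N B g →
  (∀ α, g α ≠ 0 → ∀ p, α p ≠ some (Sum.inl l) ∧ α p ≠ some (Sum.inr j)) →
  0 ≤ qr (rp2 H P n) g → - (1 / 100) ≤ sl H.F n (wN B1 N) (z0 D n') l →
  8 / 10 * (mN H.F N * (H.F.V n n' / (kapD (z0 D n')) ^ 2)) * qr (rp2 H P n) g -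
      (N : ℝ) ^ (1 / (d : ℝ)) / (Real.log N) ^ A ≤
    ∑ x ∈ Icc 1 (Hn d N), H.F.wh N x * (thP (H.M j x).toNat *
      (Lw (wN B1 N) (H.F.L n l x).toNat *
        (Fm (r4 H n (wN B1 N) (z0 D n') l j x) * ZI (DN2 H P n) g x ^ 2)))

/-- [HS md4] (uses la2, bvx, ms2, dn4, gx, pw4) Proof: compare `NS md` (`NC/R/md.lean`). `u = H.u j`. By the first claim of `R_pw4`
(terms with `wh = 0` or `thP = 0` vanish; `wh, thP, ZI^2 ≥ 0`) the sum is at least `κ(w)⁻¹ ∑_x wh thP(M_j) Fm (r4 ..) ZI^2`. `R_gx`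
with `σ = ι ⊕ κ` in place of `ι`, `P1 = PK (2D) n'` (disjoint from `P`), `Dd = DN2 H P n`, `Q = Q4 H n w z l j`,
`Al s = (s ≠ inl l ∧ s ≠ inr j)` (if `p ∣ L2 s y`, `s ≠ inr j`, and not `Cm2`, then `p ∤ M_j(y)`), `v = H.v j`, `K0` = the maximum of
`D`, `1` and the `K1` of `R_la2`, `Y0 = lev^3`, `Y = ⌊H0^(1/5000)⌋₊`, `h x = wh x thP(M_j x)`, `M = H0`, `Eq` from `R_bvx`
(`b = 6 |σ| K0`, exponent `A + 2`; `Y Y Y0 ≤ H0^(5/10000) ≤ N^(1/(1000 d))`, the other terms of the sum over `q` are `≥ 0`): the sum is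
`Sj Fm (d4) qr (rp2 H P n) g` with an error at most `3 B^2 x0/(log N)^(A+2)`, times `κ(w)⁻¹ ≤ 1000 log w ≤ log N` (`mertens`). Main
term: `Fm (d4) ≥ 0.999 W (d4)` (`Pre.mt`, `Dens`), `Sj ≥ 0.99 (u/φ(u)) m`, `(u/φ(u)) W (d4) ≥ 0.9 V κ(w)/κ(z)^2` (`R_dn4`), all `≥ 0`
(`W (d4) ≥ 0`): `0.999 * 0.99 * 0.9 ≥ 0.8`. (`rp2 = od/(j-1)` by definition.) -/
def S_md4 : Prop := A.R_la2 → R_bvx → R_ms2 → R_dn4 → R_gx → R_pw4 → R_md4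

/-! ### The expansions of the errors -/

/-- The expansion of the error for the pair `l`, `j`. -/
def R_ex4 : Prop := ∀ (ι κ : Type) [Fintype ι] [DecidableEq ι] [Fintype κ] [DecidableEq κ]
  (D d E : ℕ) (H : Fam2 ι κ D d E) (B0 B B1 : ℕ), 1 ≤ D → 1 ≤ B0 → 3 ≤ B1 →
  ∀ᶠ N : ℕ in atTop, ∀ n ∈ Ioc N (Bn E N), ∀ (n' : ℕ) (P : Finset ℕ), Par3 H.F B0 N n' P →
  ∀ Ff : (ℕ → ℝ) → ℝ, RepB (PK (2 * D) n') (fun T => ∏ p ∈ T, p ≤ lev (2 * D) n' ^ 3) Ff →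
  ∀ (l : ι) (j : κ) (g : (PJf P → Option (ι ⊕ κ)) → ℝ), Wt4 d N B g →
  (∀ α, g α ≠ 0 → ∀ p, α p ≠ some (Sum.inl l) ∧ α p ≠ some (Sum.inr j)) →
  |∑ x ∈ Icc 1 (Hn d N), H.F.wh N x * (thP (H.M j x).toNat *
      ((thP (H.F.L n l x).toNat - Lw (wN B1 N) (H.F.L n l x).toNat) *
        (Ff (r4 H n (wN B1 N) (z0 D n') l j x) * ZI (DN2 H P n) g x ^ 2)))| ≤
    3 * B ^ 2 * ErS2 H N (wN B1 N) n (6 * Fintype.card (ι ⊕ κ)) l j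

/-- [HS ex4] (uses la2, NC M win, NC Q nu, CM G es1) Proof: that of `NS ex` (`NC/R/ex.lean`) with the additional factor
`thP (H.M j x)`, `σ = ι ⊕ κ`, `Y = ⌊H0^(1/5000)⌋₊`. `R_nu` (first claim, `D = DN2 H P n`, exclusive by `R_la2`,
`ω x = wh thP(M_j) (thP - Lw)(L_l) Ff (r4 .. x)`): the sum is `∑_γ nu g γ ∑_x [dvI (DN2 ..) x γ] ω x`. Let `nu g γ ≠ 0`: then
`γ p ≠ some (inl l)`, `γ p ≠ some (inr j)` for all `p`, `nn (supp γ) ≤ Y Y`, `|nu g γ| ≤ B^2 3^|supp γ|`. Write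
`Ff ρ = ∑_T c_T ∏_{p ∈ T} ρ p`. For one `T` let `q = ∏ T * nn (supp γ)`, squarefree. The condition ``Q4` at all `p ∈ T`, and
`dvI x γ`` is periodic modulo `q`; the sum over the `x` satisfying it is the sum over the classes `c ∈ range q` satisfying it of
`Er2 H N w n l j q c`. Such a `c` satisfies `q ∣ G(c)` (`p ∈ T`: `Q4`; `p ∈ supp γ`, `γ p = some s`: `p ∣ L2 s (c) ∣ G(c)` by `F.hG` or
`H.hH`). If `L_l(c) M_j(c)` is coprime to `q` then `c ∈ Cq2 H n q l j`. Otherwise a prime `p ∣ q` divides `L_l(c)` or `M_j(c)`. It is not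
in the support of `γ` (`γ p = some s` with `s ≠ inl l, inr j`, and two common roots would give `Cm2`), so `p ∈ T`, and by `Q4` it
does not divide `M_j(c)` and it is `≤ w`: then `Er2 = 0`, because for every `x ≡ c (q)`, `x ≥ 1`, with `wh ≠ 0`: `p ∣ L_l(x)`, so
`Lw w (L_l x) = 0` and `thP (L_l x) = 0` (`L_l(x) ≥ N/C > w ≥ p` by `NC.M.R_win`). So the inner sum for `γ` is at most `∑_T E(q)`,
`E(q) = ∑_{c ∈ Cq2} |Er2|`. Sum over `γ` (last claim of `R_nu`) and `CM.G.R_es1` (`c = 3|σ|`, `K0 = 1`, `P1 = PK`, `Y0 = lev^3`): at most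
`B^2 * 3 ∑_{q ≤ Y Y Y0, squarefree} (6|σ|)^ω(q) E(q)`, `Y^2 Y0 ≤ H0^(5/10000) ≤ N^(1/(1000 d))` for large `N`. -/
def S_ex4 : Prop := A.R_la2 → NC.M.R_win → NC.Q.R_nu → CM.G.R_es1 → R_ex4

/-- The expansion of the error for the single member `l`. -/
def R_ex3 : Prop := ∀ (ι κ : Type) [Fintype ι] [DecidableEq ι] [Fintype κ] [DecidableEq κ]
  (D d E : ℕ) (H : Fam2 ι κ D d E) (B0 B B1 : ℕ), 1 ≤ D → 1 ≤ B0 → 3 ≤ B1 →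
  ∀ᶠ N : ℕ in atTop, ∀ n ∈ Ioc N (Bn E N), ∀ (n' : ℕ) (P : Finset ℕ), Par3 H.F B0 N n' P →
  ∀ Ff : (ℕ → ℝ) → ℝ, RepB (PK (2 * D) n') (fun T => ∏ p ∈ T, p ≤ lev (2 * D) n' ^ 3) Ff →
  ∀ (l : ι) (g : (PJf P → Option (ι ⊕ κ)) → ℝ), Wt4 d N B g →
  (∀ α, g α ≠ 0 → ∀ p, α p ≠ some (Sum.inl l)) →
  |∑ x ∈ Icc 1 (Hn d N), H.F.wh N x * ((thP (H.F.L n l x).toNat -
      Lw (wN B1 N) (H.F.L n l x).toNat) *
        (Ff (r3 H.F n (wN B1 N) (z0 D n') l x) * ZI (DN2 H P n) g x ^ 2))| ≤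
    3 * B ^ 2 * ErS H.F N (wN B1 N) n (6 * Fintype.card (ι ⊕ κ)) l

/-- [HS ex3] (uses la2, NC M win, NC Q nu, CM G es1) Proof: that of `NS ex` (`NC/R/ex.lean`) with `DN2 H P n`, `σ = ι ⊕ κ`, `Ff` in place
of `Fm` and `Y = ⌊H0^(1/5000)⌋₊`. The classes `c` which occur satisfy `q ∣ G(c)` (for `p ∈ supp γ`, `γ p = some s`, `p ∣ L2 s (c) ∣ G(c)` by
`F.hG` or `H.hH`), and `p ∣ L_l(c)` with `p ∈ supp γ` is excluded by `Cm2` as `γ p ≠ some (inl l)`. -/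
def S_ex3 : Prop := A.R_la2 → NC.M.R_win → NC.Q.R_nu → CM.G.R_es1 → R_ex3

/-! ### The three kinds of sums -/

open Classical in
/-- The lower bound for the sum with the two prime members `l`, `j`. -/
def R_T4 : Prop := ∀ (ι κ : Type) [Fintype ι] [DecidableEq ι] [Fintype κ] [DecidableEq κ]
  (D d E : ℕ) (H : Fam2 ι κ D d E) (B0 B B1 A : ℕ), 1 ≤ D → 1 ≤ B0 → 3 ≤ B1 →
  ∀ᶠ N : ℕ in atTop, ∀ n ∈ Ioc N (Bn E N), ∀ (n' : ℕ) (P : Finset ℕ), Par3 H.F B0 N n' P →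
  ∀ Fp Fm, Pre D n' Fp Fm → ∀ (l : ι) (j : κ) (g : (PJf P → Option (ι ⊕ κ)) → ℝ), Wt4 d N B g →
  (∀ α, g α ≠ 0 → ∀ p, α p ≠ some (Sum.inl l) ∧ α p ≠ some (Sum.inr j)) →
  0 ≤ qr (rp2 H P n) g → - (1 / 100) ≤ sl H.F n (wN B1 N) (z0 D n') l →
  8 / 10 * (mN H.F N * (H.F.V n n' / (kapD (z0 D n')) ^ 2)) * qr (rp2 H P n) g -
      (N : ℝ) ^ (1 / (d : ℝ)) / (Real.log N) ^ A -
      3 * B ^ 2 * ErS2 H N (wN B1 N) n (6 * Fintype.card (ι ⊕ κ)) l j ≤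
    ∑ x ∈ (Icc 1 (Hn d N)).filter (fun x : ℕ => H.F.Rg n (z0 D n') x),
      H.F.wh N x * (thP (H.F.L n l x).toNat * thP (H.M j x).toNat * ZI (DN2 H P n) g x ^ 2)

/-- [HS T4] (uses NC M mas, pw4, md4, ex4) Proof: that of `NS T` (`NC/R/T.lean`). By the second claim of `R_pw4` (`wh ≥ 0`,
`thP ≥ 0`, `ZI^2 ≥ 0`; both sides are `0` if `wh = 0` or `thP (M_j x) = 0`):
`wh thP(M_j) thP(L_l) Fm (r4) ZI^2 ≤ [Rg] wh thP(L_l) thP(M_j) ZI^2`. Sum over `x`: the right side is at least the sum in `R_md4`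
plus the sum in `R_ex4` (without absolute value, `Ff = Fm`, `Pre.rm`). -/
def S_T4 : Prop := NC.M.R_mas → R_pw4 → R_md4 → R_ex4 → R_T4

open Classical in
/-- The upper bound for the sum with the nonlinear prime member `l`. -/
def R_U1 : Prop := ∀ (ι κ : Type) [Fintype ι] [DecidableEq ι] [Fintype κ] [DecidableEq κ]
  (D d E : ℕ) (H : Fam2 ι κ D d E) (B0 B B1 A : ℕ), 1 ≤ D → 1 ≤ B0 → 3 ≤ B1 →
  ∀ᶠ N : ℕ in atTop, ∀ n ∈ Ioc N (Bn E N), ∀ (n' : ℕ) (P : Finset ℕ), Par3 H.F B0 N n' P →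
  ∀ Fp Fm, Pre D n' Fp Fm → ∀ (l : ι) (g : (PJf P → Option (ι ⊕ κ)) → ℝ), Wt4 d N B g →
  (∀ α, g α ≠ 0 → ∀ p, α p ≠ some (Sum.inl l)) →
  0 ≤ qr (rn2 H P n) g → sl H.F n (wN B1 N) (z0 D n') l ≤ 1 / 100 →
  ∑ x ∈ (Icc 1 (Hn d N)).filter (fun x : ℕ => H.F.Rg n (z0 D n') x),
      H.F.wh N x * (thP (H.F.L n l x).toNat * ZI (DN2 H P n) g x ^ 2) ≤
    11 / 10 * (mN H.F N * (H.F.V n n' / kapD (z0 D n'))) * qr (rn2 H P n) g +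
      (N : ℝ) ^ (1 / (d : ℝ)) / (Real.log N) ^ A +
      3 * B ^ 2 * ErS H.F N (wN B1 N) n (6 * Fintype.card (ι ⊕ κ)) l

/-- [HS U1] (uses la2, NC M mas, dn, pw, dnU, ex3, NC Q gn) Proof: `w = wN B1 N`, `z ≥ w ≥ (log N)^2` (first part of `NC.M.R_pw`).
`[Rg] ≤ Fp (r3 H.F n w z l x)` (if `Rg` all `r3 p = 0`, so `W = 1 ≤ Fp`; in general `Fp ≥ W ≥ 0`, `Pre.pt`). So the left side is at most
`∑_{x ∈ Icc 1 H0} wh thP(L_l) Fp(r3) ZI^2 = ∑ wh (thP - Lw)(L_l) Fp(r3) ZI^2 + ∑ wh Lw(L_l) Fp(r3) ZI^2`. The first is at most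
`3 B^2 ErS` (`R_ex3`, `Ff = Fp`, `Pre.rp`). In the second `Lw ≤ κ(w)⁻¹` and all factors are `≥ 0`: at most
`κ(w)⁻¹ ∑ wh Fp(r3) ZI^2`, which by `NC.Q.R_gn` (as in `NS md`, `NC/R/md.lean`: `P1 = PK (2D) n'`, `Dd = DN2 H P n`, index type
`σ = ι ⊕ κ`, `Q = Q3 H.F n w z l`, `h = wh`, `e = 4`, `K0` = the maximum of `D`, `1` and the `K1` of `R_la2`, `Y0 = lev^3`,
`Y = ⌊H0^(1/5000)⌋₊`) is `κ(w)⁻¹ m Fp (d3) qr (rn2 H P n) g` with an error `≤ x0/(log N)^A` (`κ(w)⁻¹ ≤ 1000 log w ≤ log N`; the error sum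
is `≤ 12 B^2 Q (1 + log Q)^(6|σ|K0)`, `Q ≤ H0^(5/10000)`). `Fp (d3) ≤ 1.001 W (d3)` (`Pre.mt`, `Dens` from `NC.M.R_dn`) and
`W (d3) ≤ 1.05 V κ(w)/κ(z)` (`R_dnU`): `1.001 * 1.05 ≤ 1.1`. -/
def S_U1 : Prop := A.R_la2 → NC.M.R_mas → NC.M.R_dn → NC.M.R_pw → R_dnU → R_ex3 → NC.Q.R_gn → R_U1

open Classical in
/-- The upper bound for the sum with the linear prime member `j`. -/
def R_U2 : Prop := ∀ (ι κ : Type) [Fintype ι] [DecidableEq ι] [Nonempty ι] [Fintype κ]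
  [DecidableEq κ] (D d E : ℕ) (H : Fam2 ι κ D d E) (B0 B A : ℕ), 1 ≤ D → 1 ≤ B0 →
  ∀ᶠ N : ℕ in atTop, ∀ n ∈ Ioc N (Bn E N), ∀ (n' : ℕ) (P : Finset ℕ), Par3 H.F B0 N n' P →
  ∀ Fp Fm, Pre D n' Fp Fm → ∀ (j : κ) (g : (PJf P → Option (ι ⊕ κ)) → ℝ), Wt4 d N B g →
  (∀ α, g α ≠ 0 → ∀ p, α p ≠ some (Sum.inr j)) → 0 ≤ qr (rp2 H P n) g →
  ∑ x ∈ (Icc 1 (Hn d N)).filter (fun x : ℕ => H.F.Rg n (z0 D n') x),
      H.F.wh N x * (thP (H.M j x).toNat * ZI (DN2 H P n) g x ^ 2) ≤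
    11 / 10 * (mN H.F N * (H.F.V n n' / kapD (z0 D n'))) * qr (rp2 H P n) g +
      (N : ℝ) ^ (1 / (d : ℝ)) / (Real.log N) ^ A

/-- [HS U2] (uses la2, NC M mas, bvx, ms2, dn4, gx) Proof: compare `NS S` (`NC/R/S.lean`) and `md4`. Fix some `l : ι`, and `w = z`
(`z ≥ N^(1/B0) ≥ (log N)^2`). `[Rg] ≤ Fp (r4 H n z z l j x)` (if `Rg` all `r4 p = 0`; `Fp ≥ W ≥ 0`). So the left side is at most
`∑_{x ∈ Icc 1 H0} wh thP(M_j) Fp (r4) ZI^2`, by `R_gx` (as in `md4`, `Ff = Fp`, `Al s = (s ≠ inr j)`) equal to `Sj Fp (d4) qr (rp2 H P n) g`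
with an error `≤ x0/(log N)^A`; `Fp (d4) ≤ 1.001 W (d4)`, `Sj ≤ 1.01 (u/φ(u)) m`, `(u/φ(u)) W (d4) = V/κ(z)` (last claim of `R_dn4`), and
`1.001 * 1.01 ≤ 1.1`. -/
def S_U2 : Prop := A.R_la2 → NC.M.R_mas → R_bvx → R_ms2 → R_dn4 → R_gx → R_U2

/-- The size of the weights at the points without small prime factors. -/
def R_wm4 : Prop := ∀ (ι κ : Type) [Fintype ι] [DecidableEq ι] [Fintype κ] [DecidableEq κ]
  (D d E : ℕ) (H : Fam2 ι κ D d E) (B0 B : ℕ), 1 ≤ D → 1 ≤ B0 → ∀ᶠ N : ℕ in atTop,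
  ∀ n ∈ Ioc N (Bn E N), ∀ (n' : ℕ) (P : Finset ℕ), Par3 H.F B0 N n' P →
  ∀ g : (PJf P → Option (ι ⊕ κ)) → ℝ, (∀ α, |g α| ≤ B) → ∀ x : ℕ, 1 ≤ x → H.F.wh N x ≠ 0 →
  H.F.Rg n (z0 D n') x → (∀ l, thP (H.F.L n l x).toNat ≤ 2 * Real.log N) ∧
  (∀ j, thP (H.M j x).toNat ≤ 2 * Real.log (Hn d N)) ∧
  ZI (DN2 H P n) g x ^ 2 ≤ (2 ^ (Fintype.card (ι ⊕ κ) * (B0 + 1)) * (B : ℝ)) ^ 2

/-- [HS wm4] (uses NC M win, win2) Proof: that of `NS wm` (`NC/R/wm.lean`) with `σ = ι ⊕ κ`. For `s : σ`, `m = L2 s x` satisfies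
`0 < m ≤ C N` (`NC.M.R_win`, `R_win2`) and `m ∣ G(x)` (`F.hG`, `H.hH`), so it has no prime factor `≤ z`, and at most `B0 + 1` prime
factors; the `p ∈ P` with `DN2 H P n p s x` divide `m` (`card_dvd_le`); `abs_ZI_le` (`MT/Zb.lean`). `thP m ≤ log m`, and
`log (M_j x) ≤ (3/2) log H0`. -/
def S_wm4 : Prop := NC.M.R_win → R_win2 → R_wm4

end Pool.Agent.HC.M
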