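import Pool.Agent.Lib.MP_0da313_nt.NC.Final
import Pool.Agent.Lib.MP_0da313_nt.HC.E
import Pool.Agent.Lib.MP_0da313_nt.HC.F
import Pool.Agent.Lib.MP_0da313_nt.HC.P.wa
import Pool.Agent.Lib.MP_0da313_nt.HC.P.sr
import Pool.Agent.Lib.MP_0da313_nt.HC.P.t1
import Pool.Agent.Lib.MP_0da313_nt.HC.P.ms
import Pool.Agent.Lib.MP_0da313_nt.HC.P.wd
import Pool.Agent.Lib.MP_0da313_nt.HC.P.gw
import Pool.Agent.Lib.MP_0da313_nt.HC.P.T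
import Pool.Agent.Lib.MP_0da313_nt.HC.P.rl
import Pool.Agent.Lib.MP_0da313_nt.HC.P.gb
import Pool.Agent.Lib.MP_0da313_nt.HC.P.cs
import Pool.Agent.Lib.MP_0da313_nt.HC.P.t2
import Pool.Agent.Lib.MP_0da313_nt.HC.P.La
import Pool.Agent.Lib.MP_0da313_nt.HC.P.hw
import Pool.Agent.Lib.MP_0da313_nt.HC.P.gmi2
import Pool.Agent.Lib.MP_0da313_nt.HC.P.sgq2
import Pool.Agent.Lib.MP_0da313_nt.HC.P.qs2
import Pool.Agent.Lib.MP_0da313_nt.HC.P.EX2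
import Pool.Agent.Lib.MP_0da313_nt.HC.P.la2
import Pool.Agent.Lib.MP_0da313_nt.HC.P.gq2
import Pool.Agent.Lib.MP_0da313_nt.HC.P.gs2
import Pool.Agent.Lib.MP_0da313_nt.HC.P.win2
import Pool.Agent.Lib.MP_0da313_nt.HC.P.bvx
import Pool.Agent.Lib.MP_0da313_nt.HC.P.ms2
import Pool.Agent.Lib.MP_0da313_nt.HC.P.dn4
import Pool.Agent.Lib.MP_0da313_nt.HC.P.dnU
import Pool.Agent.Lib.MP_0da313_nt.HC.P.gx
import Pool.Agent.Lib.MP_0da313_nt.HC.P.pw4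
import Pool.Agent.Lib.MP_0da313_nt.HC.P.md4
import Pool.Agent.Lib.MP_0da313_nt.HC.P.ex4
import Pool.Agent.Lib.MP_0da313_nt.HC.P.ex3
import Pool.Agent.Lib.MP_0da313_nt.HC.P.T4
import Pool.Agent.Lib.MP_0da313_nt.HC.P.U1
import Pool.Agent.Lib.MP_0da313_nt.HC.P.U2
import Pool.Agent.Lib.MP_0da313_nt.HC.P.wm4
import Pool.Agent.Lib.MP_0da313_nt.HC.P.sys2
import Pool.Agent.Lib.MP_0da313_nt.HC.P.nu2
import Pool.Agent.Lib.MP_0da313_nt.HC.P.cn4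
import Pool.Agent.Lib.MP_0da313_nt.HC.P.fm2
import Pool.Agent.Lib.MP_0da313_nt.HC.P.fin2

set_option autoImplicit false

/-!
Project HC: the assembly.
-/

namespace Pool.Agent.HC

/-! ### Section W -/

namespace W

theorem h_wa : R_wa := p_wa

theorem h_t1 : R_t1 := p_t1 h_wa p_sr

theorem h_ms : R_ms := p_ms

theorem h_wd : R_wd := p_wd h_ms

theorem h_gw : R_gw := p_gw h_ms h_wd

theorem h_T : R_T := p_T h_ms h_gw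

theorem h_gb : R_gb := p_gb p_rl

theorem h_t2 : R_t2 := p_t2 h_T h_gb p_cs

theorem h_La : R_La := p_La h_t1 h_t2 CH.D.p_vau

theorem h_hw : R_hw := p_hw h_La

end W

/-! ### Section E -/

namespace E

theorem h_gmi2 : R_gmi2 := p_gmi2 W.h_hw NC.E.h_loc

theorem h_sgq2 : R_sgq2 := p_sgq2 NC.E.h_loc h_gmi2 NC.G.h_spl

theorem h_qs2 : R_qs2 := p_qs2 h_sgq2 NC.E.h_cq

theorem h_EX2 : HC.R_EX2 := p_EX2 h_qs2 NC.G.h_mjL TC.E.p_pm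

end E

/-! ### Section A -/

namespace A

theorem h_la2 : R_la2 := p_la2

theorem h_gq2 : R_gq2 := p_gq2 h_la2 NC.A.h_v2 CM.W.h_pr

theorem h_gs2 : R_gs2 := p_gs2 NC.A.h_la NC.Q.h_cr

end A

/-! ### Section M -/

namespace M

theorem h_win2 : R_win2 := p_win2

theorem h_bvx : R_bvx := p_bvx CM.B.h_B

theorem h_ms2 : R_ms2 := p_ms2 CM.B.h_B CM.M.h_mu CM.M.h_m1

theorem h_dn4 : R_dn4 := p_dn4 NC.A.h_la

theorem h_dnU : R_dnU := p_dnU NC.A.h_la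

theorem h_gx : R_gx := p_gx NC.Q.h_nu NC.Q.h_cr CM.G.h_es1

theorem h_pw4 : R_pw4 := p_pw4 NC.M.h_win h_win2

theorem h_md4 : R_md4 := p_md4 A.h_la2 h_bvx h_ms2 h_dn4 h_gx h_pw4

theorem h_ex4 : R_ex4 := p_ex4 A.h_la2 NC.M.h_win NC.Q.h_nu CM.G.h_es1

theorem h_ex3 : R_ex3 := p_ex3 A.h_la2 NC.M.h_win NC.Q.h_nu CM.G.h_es1

theorem h_T4 : R_T4 := p_T4 NC.M.h_mas h_pw4 h_md4 h_ex4

theorem h_U1 : R_U1 := p_U1 A.h_la2 NC.M.h_mas NC.M.h_dn NC.M.h_pw h_dnU h_ex3 NC.Q.h_gn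

theorem h_U2 : R_U2 := p_U2 A.h_la2 NC.M.h_mas h_bvx h_ms2 h_dn4 h_gx

theorem h_wm4 : R_wm4 := p_wm4 NC.M.h_win h_win2

end M

/-! ### Section F -/

namespace F

theorem h_sys2 : R_sys2 := p_sys2 TC.W.h_wpg TC.W.h_tz TC.W.h_tsup TC.W.h_bt CM.W.h_pr

theorem h_cn4 : R_cn4 := p_cn4 p_nu2 A.h_la2 NC.Q.h_qp NC.M.h_win NC.M.h_mas NC.M.h_dn NC.M.h_pw
  M.h_win2 M.h_T4 M.h_U1 M.h_U2 M.h_wm4 CM.S.h_pre

theorem h_fm2 : R_fm2 := p_fm2 NC.F.h_fm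

/-- The final theorem. -/
theorem h_fin2 : R_fin2 := p_fin2 E.h_EX2 NC.h_EX NC.h_final h_sys2 h_cn4 h_fm2 A.h_gq2 A.h_gs2
  NC.M.h_win TC.F.p_bk

end F

end Pool.Agent.HC
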